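import Pool.Agent.Helper97.RU.Defs

/-!
# Functions as quotients of forms
-/

set_option autoImplicit false

namespace Pool.Agent.Helper97.RU

open MvPolynomial Pool.Agent.Helper97.GM

variable {k : Type*} [Field k] {σ τ : Type*}

theorem aeval_smul_form' {L : Type*} [CommRing L] [Algebra k L] (c : L) (x : σ → L)
    {f : MvPolynomial σ k} {n : ℕ} (hf : f.IsHomogeneous n) :
    aeval (fun i => c * x i) f = c ^ n * aeval x f := by
  rw [aeval_def, aeval_def, eval₂_eq, eval₂_eq, Finset.mul_sum]
  refine Finset.sum_congr rfl fun d hd => ?_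
  have h1 : ∏ i ∈ d.support, (c * x i) ^ d i = c ^ n * ∏ i ∈ d.support, x i ^ d i := by
    have h2 : n = ∑ i ∈ d.support, d i := by
      have h4 : Finsupp.degree d = n := by
        by_contra h3
        exact (mem_support_iff.1 hd) (hf.coeff_eq_zero h3)
      rw [← h4, Finsupp.degree_apply]
    rw [h2, ← Finset.prod_pow_eq_pow_sum, ← Finset.prod_mul_distrib]
    exact Finset.prod_congr rfl fun i _ => by rw [mul_pow]
  rw [h1]
  ring

/-- Homogenisation to degree `N` with the variable `i`. -/
noncomputable def homog (i : σ) (N : ℕ) (p : MvPolynomial σ k) : MvPolynomial σ k :=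
  ∑ m ∈ Finset.range (N + 1), homogeneousComponent m p * X i ^ (N - m)

theorem homog_hom (i : σ) (N : ℕ) (p : MvPolynomial σ k) : (homog i N p).IsHomogeneous N := by
  refine IsHomogeneous.sum _ _ _ fun m hm => ?_
  have h1 := (homogeneousComponent_isHomogeneous m p).mul ((isHomogeneous_X k i).pow (N - m))
  have h2 : m + 1 * (N - m) = N := by
    have := Finset.mem_range.1 hm
    omega
  rwa [h2] at h1

theorem sum_range_hom {p : MvPolynomial σ k} {N : ℕ} (hN : p.totalDegree ≤ N) :
    ∑ m ∈ Finset.range (N + 1), homogeneousComponent m p = p := by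
  conv_rhs => rw [← sum_homogeneousComponent p]
  symm
  refine Finset.sum_subset ?_ fun m _ hm => ?_
  · intro m hm
    have := Finset.mem_range.1 hm
    exact Finset.mem_range.2 (by omega)
  · apply homogeneousComponent_eq_zero
    have h1 : ¬ m < p.totalDegree + 1 := fun h => hm (Finset.mem_range.2 h)
    omega

theorem aeval_homog {L : Type*} [Field L] [Algebra k L] (y : σ → L) {i : σ} (hi : y i ≠ 0)
    {p : MvPolynomial σ k} {N : ℕ} (hN : p.totalDegree ≤ N) :
    aeval y (homog i N p) = y i ^ N * aeval (fun j => y j / y i) p := by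
  conv_rhs => rw [← sum_range_hom hN]
  rw [homog, map_sum, map_sum, Finset.mul_sum]
  refine Finset.sum_congr rfl fun m hm => ?_
  have h1 : m ≤ N := by
    have := Finset.mem_range.1 hm
    omega
  have h2 : aeval y (homogeneousComponent m p) =
      y i ^ m * aeval (fun j => y j / y i) (homogeneousComponent m p) := by
    rw [← aeval_smul_form' _ _ (homogeneousComponent_isHomogeneous m p)]
    congr 2
    funext j
    rw [mul_div_cancel₀ _ hi]
  rw [map_mul, map_pow, aeval_X, h2]
  have h3 : y i ^ N = y i ^ m * y i ^ (N - m) := by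
    rw [← pow_add]
    congr 1
    omega
  rw [h3]
  ring

theorem exists_forms {L : Type*} [Field L] [Algebra k L] [Finite τ] (y : σ → L) {i : σ}
    (hi : y i ≠ 0) (z : τ → L)
    (hz : ∀ l, z l ∈ IntermediateField.adjoin k (Set.range fun j => y j / y i)) :
    ∃ (d : ℕ) (φ : τ → MvPolynomial σ k) (φ₀ : MvPolynomial σ k), (∀ l, (φ l).IsHomogeneous d) ∧
      φ₀.IsHomogeneous d ∧ aeval y φ₀ ≠ 0 ∧ ∀ l, z l = aeval y (φ l) / aeval y φ₀ := by
  classical
  have := Fintype.ofFinite τ
  set w : σ → L := fun j => y j / y i with hw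
  have h1 : ∀ l, ∃ r s : MvPolynomial σ k, aeval w s ≠ 0 ∧ z l = aeval w r / aeval w s := by
    intro l
    obtain ⟨r, s, h2⟩ := (IntermediateField.mem_adjoin_range_iff k w (z l)).1 (hz l)
    by_cases h3 : aeval w s = 0
    · refine ⟨0, 1, by simp, ?_⟩
      rw [h2, h3]
      simp
    · exact ⟨r, s, h3, h2⟩
  choose r s hs hr using h1
  set S : MvPolynomial σ k := ∏ l, s l with hS
  set R : τ → MvPolynomial σ k := fun l => r l * ∏ l' ∈ Finset.univ.erase l, s l' with hR
  set N : ℕ := S.totalDegree + ∑ l, (R l).totalDegree with hN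
  have hSN : S.totalDegree ≤ N := by omega
  have hRN : ∀ l, (R l).totalDegree ≤ N := by
    intro l
    have := Finset.single_le_sum (f := fun l => (R l).totalDegree) (fun _ _ => Nat.zero_le _)
      (Finset.mem_univ l)
    omega
  have hS0 : aeval w S ≠ 0 := by
    rw [hS, map_prod]
    exact Finset.prod_ne_zero_iff.2 fun l _ => hs l
  refine ⟨N, fun l => homog i N (R l), homog i N S, fun l => homog_hom _ _ _, homog_hom _ _ _, ?_, ?_⟩
  · rw [aeval_homog y hi hSN]
    exact mul_ne_zero (pow_ne_zero _ hi) hS0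
  · intro l
    rw [aeval_homog y hi hSN, aeval_homog y hi (hRN l), mul_div_mul_left _ _ (pow_ne_zero _ hi), hr l,
      div_eq_div_iff (hs l) hS0]
    have h4 : S = s l * ∏ l' ∈ Finset.univ.erase l, s l' := by
      rw [hS, Finset.mul_prod_erase _ _ (Finset.mem_univ l)]
    have h5 : R l = r l * ∏ l' ∈ Finset.univ.erase l, s l' := rfl
    rw [h4, h5, map_mul, map_mul]
    ring

end Pool.Agent.Helper97.RU
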