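import Pool.Agent.Helper97.RU.Forms

/-!
# Birationally ruled varieties
-/

set_option autoImplicit false

namespace Pool.Agent.Helper97.RU

open MvPolynomial Pool.Agent.Helper97.GM

universe u

variable {k : Type u} [Field k] {σ : Type} [Fintype σ]

/-- `X` is birational to the product of a variety of positive dimension (with function field `E`) and
the projective line: there is a dominant rational map, given by `y_i ∈ E(t)` whose homogeneous
relations are the forms in `I`, and it is birational. -/
def IsRuled (I : Ideal (MvPolynomial σ k)) : Prop :=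
  ∃ (E : Type u) (_ : Field E) (_ : Algebra k E) (y : σ → RatFunc E),
    (∃ e : E, Transcendental k e) ∧
    (∀ (f : MvPolynomial σ k) (d : ℕ), f.IsHomogeneous d → (f ∈ I ↔ aeval y f = 0)) ∧
    ∃ i, y i ≠ 0 ∧ IntermediateField.adjoin k (Set.range fun j => y j / y i) = ⊤

/-- The family of curves `t ↦ (∑ b_(j,m) t ^ m)_j`. -/
noncomputable def Psi {M : ℕ} {A : Type*} [CommRing A] (b : σ × Fin M → A) : σ → Polynomial A :=
  fun j => ∑ m : Fin M, Polynomial.C (b (j, m)) * Polynomial.X ^ (m : ℕ)

/-- The curves of the ruling in terms of a rational map `φ` and a coordinate `τ₁ / τ₂` on them. -/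
def RulingAt (I : Ideal (MvPolynomial σ k)) {M : ℕ} (φ : σ × Fin M → MvPolynomial σ k)
    (τ₁ τ₂ : MvPolynomial σ k) {K : Type u} [Field K] [Algebra k K] (b : σ × Fin M → K) : Prop :=
  On I (Psi b) ∧ aeval (Psi b) τ₁ = Polynomial.X * aeval (Psi b) τ₂ ∧ aeval (Psi b) τ₂ ≠ 0 ∧
    (∀ l l', aeval (Psi b) (φ l) * Polynomial.C (b l') = aeval (Psi b) (φ l') * Polynomial.C (b l)) ∧
    ∃ l, aeval (Psi b) (φ l) ≠ 0

omit [Fintype σ] in
theorem psi_map {M : ℕ} {A B : Type*} [CommRing A] [Algebra k A] [CommRing B] [Algebra k B]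
    (g : A →ₐ[k] B) (b : σ × Fin M → A) (f : MvPolynomial σ k) :
    Polynomial.mapAlgHom g (aeval (Psi b) f) = aeval (Psi fun l => g (b l)) f := by
  rw [← AlgHom.comp_apply, comp_aeval]
  congr 2
  funext j
  simp [Psi]

/-- A polynomial whose coefficients are forms of degree `n`. -/
def PH {ι : Type*} (g : Polynomial (MvPolynomial ι k)) (n : ℕ) : Prop :=
  ∀ m, (g.coeff m).IsHomogeneous n

section

variable {ι : Type*}

theorem PH.mul {g h : Polynomial (MvPolynomial ι k)} {n n' : ℕ} (hg : PH g n) (hh : PH h n') :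
    PH (g * h) (n + n') := by
  intro m
  rw [Polynomial.coeff_mul]
  exact IsHomogeneous.sum _ _ _ fun x _ => (hg x.1).mul (hh x.2)

theorem PH.sub {g h : Polynomial (MvPolynomial ι k)} {n : ℕ} (hg : PH g n) (hh : PH h n) :
    PH (g - h) n := by
  intro m
  rw [Polynomial.coeff_sub]
  exact (hg m).sub (hh m)

theorem PH.sum {α : Type*} {s : Finset α} {g : α → Polynomial (MvPolynomial ι k)} {n : ℕ}
    (hg : ∀ i ∈ s, PH (g i) n) : PH (∑ i ∈ s, g i) n := by
  intro m
  rw [Polynomial.finsetSum_coeff]
  exact IsHomogeneous.sum _ _ _ fun x hx => hg x hx m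

theorem PH.C {p : MvPolynomial ι k} {n : ℕ} (hp : p.IsHomogeneous n) :
    PH (Polynomial.C p) n := by
  intro m
  rw [Polynomial.coeff_C]
  split_ifs
  · exact hp
  · exact isHomogeneous_zero _ _ _

theorem PH.X : PH (Polynomial.X : Polynomial (MvPolynomial ι k)) 0 := by
  intro m
  rw [Polynomial.coeff_X]
  split_ifs
  · exact isHomogeneous_one _ _
  · exact isHomogeneous_zero _ _ _

theorem PH.pow {g : Polynomial (MvPolynomial ι k)} {n : ℕ} (hg : PH g n) (e : ℕ) :
    PH (g ^ e) (n * e) := by
  induction e with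
  | zero =>
    have h1 := PH.C (isHomogeneous_one ι k)
    simpa using h1
  | succ e ih =>
    rw [pow_succ, mul_add, mul_one]
    exact ih.mul hg

theorem PH.prod {α : Type*} {s : Finset α} {g : α → Polynomial (MvPolynomial ι k)} {n : α → ℕ}
    (hg : ∀ i ∈ s, PH (g i) (n i)) : PH (∏ i ∈ s, g i) (∑ i ∈ s, n i) := by
  classical
  induction s using Finset.induction_on with
  | empty =>
    have h1 := PH.C (isHomogeneous_one ι k)
    simpa using h1
  | insert a s ha ih =>
    rw [Finset.prod_insert ha, Finset.sum_insert ha]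
    exact (hg a (Finset.mem_insert_self _ _)).mul
      (ih fun i hi => hg i (Finset.mem_insert_of_mem hi))

/-- A family vanishing at `e` vanishes at `b`, when the forms do. -/
theorem PH.transfer {A B : Type*} [CommRing A] [Algebra k A] [CommRing B] [Algebra k B]
    {e : ι → A} {b : ι → B}
    (hb : ∀ (g : MvPolynomial ι k) (n : ℕ), g.IsHomogeneous n → aeval e g = 0 → aeval b g = 0)
    {g : Polynomial (MvPolynomial ι k)} {n : ℕ} (hg : PH g n)
    (h : Polynomial.mapAlgHom (aeval e : MvPolynomial ι k →ₐ[k] A) g = 0) :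
    Polynomial.mapAlgHom (aeval b : MvPolynomial ι k →ₐ[k] B) g = 0 := by
  ext m
  have h1 : (Polynomial.mapAlgHom (aeval e : MvPolynomial ι k →ₐ[k] A) g).coeff m =
      aeval e (g.coeff m) := by
    simp [Polynomial.coeff_map]
  have h2 : (Polynomial.mapAlgHom (aeval b : MvPolynomial ι k →ₐ[k] B) g).coeff m =
      aeval b (g.coeff m) := by
    simp [Polynomial.coeff_map]
  rw [h2, Polynomial.coeff_zero]
  refine hb _ n (hg m) ?_
  rw [← h1, h, Polynomial.coeff_zero]

end

/-- The generic family. -/
noncomputable def Gen (M : ℕ) (f : MvPolynomial σ k) : Polynomial (MvPolynomial (σ × Fin M) k) :=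
  aeval (Psi (X : σ × Fin M → MvPolynomial (σ × Fin M) k)) f

omit [Fintype σ] in
theorem gen_ph {M : ℕ} {f : MvPolynomial σ k} {n : ℕ} (hf : f.IsHomogeneous n) :
    PH (Gen M f) n := by
  rw [Gen, aeval_def, eval₂_eq]
  refine PH.sum fun d hd => ?_
  have h1 : PH (algebraMap k (Polynomial (MvPolynomial (σ × Fin M) k)) (coeff d f)) 0 := by
    rw [IsScalarTower.algebraMap_apply k (MvPolynomial (σ × Fin M) k), algebraMap_eq]
    exact PH.C (isHomogeneous_C _ _)
  have h2 : PH (∏ i ∈ d.support, (Psi (X : σ × Fin M → MvPolynomial (σ × Fin M) k)) i ^ d i)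
      (∑ i ∈ d.support, 1 * d i) := by
    refine PH.prod fun i _ => PH.pow ?_ _
    refine PH.sum fun m _ => ?_
    have h3 := (PH.C (isHomogeneous_X k (i, m))).mul (PH.X.pow (m : ℕ))
    simpa using h3
  have h3 : n = ∑ i ∈ d.support, d i := by
    have h4 : Finsupp.degree d = n := by
      by_contra h3
      exact (mem_support_iff.1 hd) (hf.coeff_eq_zero h3)
    rw [← h4, Finsupp.degree_apply]
  have h4 := h1.mul h2
  simp only [one_mul, zero_add] at h4
  rw [h3]
  exact h4

omit [Fintype σ] in
theorem gen_map {M : ℕ} {A : Type*} [CommRing A] [Algebra k A] (b : σ × Fin M → A)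
    (f : MvPolynomial σ k) :
    Polynomial.mapAlgHom (aeval b : MvPolynomial (σ × Fin M) k →ₐ[k] A) (Gen M f) =
      aeval (Psi b) f := by
  have h1 := psi_map (aeval b : MvPolynomial (σ × Fin M) k →ₐ[k] A) X f
  simp only [aeval_X] at h1
  exact h1

omit [Fintype σ] in
theorem gen_coeff {M : ℕ} {A : Type*} [CommRing A] [Algebra k A] (b : σ × Fin M → A)
    (f : MvPolynomial σ k) (m : ℕ) :
    (aeval (Psi b) f).coeff m = aeval b ((Gen M f).coeff m) := by
  rw [← gen_map b f]
  simp [Polynomial.coeff_map]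

omit [Fintype σ] in
/-- Clearing denominators. -/
theorem clear_denoms [Finite σ] {E : Type u} [Field E] [Algebra k E] (y : σ → RatFunc E) :
    ∃ (Q : RatFunc E) (P : σ → Polynomial E), Q ≠ 0 ∧
      ∀ j, algebraMap (Polynomial E) (RatFunc E) (P j) = Q * y j := by
  classical
  have := Fintype.ofFinite σ
  refine ⟨algebraMap (Polynomial E) (RatFunc E) (∏ j, (y j).denom),
    fun j => (y j).num * ∏ j' ∈ Finset.univ.erase j, (y j').denom, ?_, ?_⟩
  · rw [Ne, map_eq_zero_iff _ (RatFunc.algebraMap_injective E)]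
    exact Finset.prod_ne_zero_iff.2 fun j _ => RatFunc.denom_ne_zero _
  · intro j
    have h1 : algebraMap (Polynomial E) (RatFunc E) (y j).denom ≠ 0 := by
      rw [Ne, map_eq_zero_iff _ (RatFunc.algebraMap_injective E)]
      exact RatFunc.denom_ne_zero _
    have h2 := (div_eq_iff h1).1 (RatFunc.num_div_denom (y j))
    rw [← Finset.mul_prod_erase _ _ (Finset.mem_univ j), map_mul, map_mul, h2]
    ring

omit [Fintype σ] in
theorem aeval_ratFunc {E : Type u} [Field E] [Algebra k E] (P : σ → Polynomial E)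
    (f : MvPolynomial σ k) :
    aeval (fun j => algebraMap (Polynomial E) (RatFunc E) (P j)) f =
      algebraMap (Polynomial E) (RatFunc E) (aeval P f) :=
  aeval_algebraMap_apply (RatFunc E) P f

/-- Polynomial form of the datum. -/
theorem isRuled_poly {I : Ideal (MvPolynomial σ k)} (h : IsRuled I) :
    ∃ (E : Type u) (_ : Field E) (_ : Algebra k E) (P : σ → Polynomial E) (i : σ),
      (∃ e : E, Transcendental k e) ∧
      (∀ (f : MvPolynomial σ k) (d : ℕ), f.IsHomogeneous d → (f ∈ I ↔ aeval P f = 0)) ∧ P i ≠ 0 ∧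
      IntermediateField.adjoin k (Set.range fun j =>
        algebraMap (Polynomial E) (RatFunc E) (P j) /
          algebraMap (Polynomial E) (RatFunc E) (P i)) = ⊤ := by
  obtain ⟨E, _, _, y, he, hI, i, hi, hadj⟩ := h
  obtain ⟨Q, P, hQ, hP⟩ := clear_denoms (k := k) y
  refine ⟨E, _, _, P, i, he, ?_, ?_, ?_⟩
  · intro f d hf
    rw [hI f d hf]
    have h1 : aeval (fun j => algebraMap (Polynomial E) (RatFunc E) (P j)) f = Q ^ d * aeval y f := by
      rw [← aeval_smul_form' Q y hf]
      congr 2
      funext j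
      exact hP j
    rw [aeval_ratFunc] at h1
    constructor
    · intro h2
      rw [h2, mul_zero, map_eq_zero_iff _ (RatFunc.algebraMap_injective E)] at h1
      exact h1
    · intro h2
      rw [h2, map_zero] at h1
      rcases mul_eq_zero.1 h1.symm with h3 | h3
      · exact absurd h3 (pow_ne_zero _ hQ)
      · exact h3
  · intro h1
    have h2 := hP i
    rw [h1, map_zero] at h2
    exact (mul_ne_zero hQ hi) h2.symm
  · rw [← hadj]
    congr 2
    funext j
    rw [hP j, hP i, mul_div_mul_left _ _ hQ]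

theorem data {I : Ideal (MvPolynomial σ k)} (hH : Hom I) (h : IsRuled I) :
    ∃ (M d d' δ : ℕ) (φ : σ × Fin M → MvPolynomial σ k) (τ₁ τ₂ : MvPolynomial σ k)
      (D : MvPolynomial (σ × Fin M) k),
      (∀ l, (φ l).IsHomogeneous d) ∧ τ₁.IsHomogeneous d' ∧ τ₂.IsHomogeneous d' ∧
      D.IsHomogeneous δ ∧ 1 ≤ δ ∧ bind₁ φ D ∉ I ∧
      (∃ l l', ∀ c c' : k, c ≠ 0 ∨ c' ≠ 0 → C c * φ l + C c' * φ l' ∉ I) ∧
      ∀ (K : Type u) [Field K] [Algebra k K] (b : σ × Fin M → K), InB I φ b → aeval b D ≠ 0 →
        RulingAt I φ τ₁ τ₂ b := by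
  classical
  obtain ⟨E, _, _, P, i, ⟨e0, he0⟩, hI, hi, hadj⟩ := isRuled_poly h
  -- the family through the generic point
  obtain ⟨M, e, he⟩ : ∃ (M : ℕ) (e : σ × Fin M → E), Psi e = P := by
    refine ⟨∑ j, (P j).natDegree + 1, fun l => (P l.1).coeff l.2, ?_⟩
    funext j
    have h1 : (P j).natDegree < ∑ j, (P j).natDegree + 1 := by
      have := Finset.single_le_sum (f := fun j => (P j).natDegree) (fun _ _ => Nat.zero_le _)
        (Finset.mem_univ j)
      omega
    conv_rhs => rw [(P j).as_sum_range' _ h1]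
    rw [Psi, ← Fin.sum_univ_eq_sum_range (fun m => Polynomial.monomial m ((P j).coeff m))]
    refine Finset.sum_congr rfl fun m _ => ?_
    rw [Polynomial.C_mul_X_pow_eq_monomial]
  obtain ⟨l0, hl0⟩ : ∃ l, e l ≠ 0 := by
    by_contra h1
    push Not at h1
    apply hi
    rw [← he, Psi]
    exact Finset.sum_eq_zero fun m _ => by rw [h1]; simp
  have hinj := RatFunc.algebraMap_injective E
  have hi' : algebraMap (Polynomial E) (RatFunc E) (P i) ≠ 0 := by
    rwa [Ne, map_eq_zero_iff _ hinj]
  obtain ⟨d, ψ, φ₀, hψ, hφ₀, hne, hz⟩ := exists_forms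
    (y := fun j => algebraMap (Polynomial E) (RatFunc E) (P j)) (i := i) hi'
    (z := fun l : Option (σ × Fin M) => match l with
      | none => algebraMap (Polynomial E) (RatFunc E) Polynomial.X
      | some l => algebraMap (Polynomial E) (RatFunc E) (Polynomial.C (e l / e l0)))
    (fun l => by rw [hadj]; trivial)
  simp only [aeval_ratFunc] at hne hz
  have hκ : aeval P φ₀ ≠ 0 := fun h1 => hne (by rw [h1, map_zero])
  set κ : Polynomial E := aeval P φ₀ with hκd
  have h1 : ∀ l, aeval P (ψ (some l)) = κ * Polynomial.C (e l / e l0) := by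
    intro l
    apply hinj
    have h2 := hz (some l)
    simp only at h2
    rw [map_mul, h2]
    field_simp
  have h2 : aeval P (ψ none) = Polynomial.X * κ := by
    apply hinj
    have h3 := hz none
    simp only at h3
    rw [map_mul, h3]
    field_simp
  set φ : σ × Fin M → MvPolynomial σ k := fun l => ψ (some l) with hφ
  have hκ' : κ * Polynomial.C (e l0)⁻¹ ≠ 0 :=
    mul_ne_zero hκ (by rw [Ne, Polynomial.C_eq_zero]; exact inv_ne_zero hl0)
  have h3 : ∀ l, aeval P (φ l) = (κ * Polynomial.C (e l0)⁻¹) * Polynomial.C (e l) := by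
    intro l
    rw [hφ, h1 l, mul_assoc, ← Polynomial.C_mul, div_eq_inv_mul]
  -- the key equivalence
  have key0 : ∀ (g : MvPolynomial (σ × Fin M) k) (n : ℕ), g.IsHomogeneous n →
      (bind₁ φ g ∈ I ↔ aeval e g = 0) := by
    intro g n hg
    have h4 : (bind₁ φ g).IsHomogeneous (d * n) := hg.aeval φ fun l => hψ _
    rw [hI _ _ h4, aeval_bind₁]
    have h5 : aeval (fun l => aeval P (φ l)) g =
        (κ * Polynomial.C (e l0)⁻¹) ^ n * Polynomial.C (aeval e g) := by
      have h6 : Polynomial.C (aeval e g) = aeval (fun l => Polynomial.C (e l)) g :=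
        (aeval_algebraMap_apply (Polynomial E) e g).symm
      rw [h6, ← aeval_smul_form' _ _ hg]
      congr 2
      funext l
      exact h3 l
    rw [h5, mul_eq_zero, Polynomial.C_eq_zero]
    constructor
    · rintro (h7 | h7)
      · exact absurd h7 (pow_ne_zero _ hκ')
      · exact h7
    · exact Or.inr
  have hP : ∀ f : MvPolynomial σ k, Polynomial.mapAlgHom
      (aeval e : MvPolynomial (σ × Fin M) k →ₐ[k] E) (Gen M f) = aeval P f := by
    intro f
    rw [gen_map, he]
  obtain ⟨m1, hm1⟩ : ∃ m, aeval e ((Gen M (φ l0)).coeff m) ≠ 0 := by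
    by_contra h4
    push Not at h4
    have h5 : aeval P (φ l0) = 0 := by
      ext m
      rw [← he, gen_coeff, h4, Polynomial.coeff_zero]
    rw [h3 l0] at h5
    exact (mul_ne_zero hκ' (by rwa [Ne, Polynomial.C_eq_zero])) h5
  obtain ⟨m2, hm2⟩ : ∃ m, aeval e ((Gen M φ₀).coeff m) ≠ 0 := by
    by_contra h4
    push Not at h4
    apply hκ
    rw [hκd]
    ext m
    rw [← he, gen_coeff, h4, Polynomial.coeff_zero]
  set D : MvPolynomial (σ × Fin M) k :=
    X l0 * (Gen M (φ l0)).coeff m1 * (Gen M φ₀).coeff m2 with hD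
  have hDh : D.IsHomogeneous (1 + d + d) :=
    ((isHomogeneous_X k l0).mul (gen_ph (hψ _) m1)).mul (gen_ph hφ₀ m2)
  refine ⟨M, d, d, 1 + d + d, φ, ψ none, φ₀, D, fun l => hψ _, hψ _, hφ₀, hDh, by omega, ?_, ?_, ?_⟩
  · rw [key0 _ _ hDh, hD, map_mul, map_mul, aeval_X]
    exact mul_ne_zero (mul_ne_zero hl0 hm1) hm2
  · -- independence
    by_contra hcon
    push Not at hcon
    have h4 : ∀ l, ∃ a : k, e l = algebraMap k E a * e l0 := by
      intro l
      obtain ⟨c, c', hc, hmem⟩ := hcon l l0
      have h5 : (C c * φ l + C c' * φ l0) = bind₁ φ (C c * X l + C c' * X l0) := by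
        simp
      have h6 : (C c * X l + C c' * X l0 : MvPolynomial (σ × Fin M) k).IsHomogeneous 1 := by
        refine IsHomogeneous.add ?_ ?_
        · simpa using (isHomogeneous_C (σ × Fin M) c).mul (isHomogeneous_X k l)
        · simpa using (isHomogeneous_C (σ × Fin M) c').mul (isHomogeneous_X k l0)
      rw [h5, key0 _ _ h6] at hmem
      simp only [map_add, map_mul, aeval_X, aeval_C] at hmem
      have h7 : c ≠ 0 := by
        intro h8
        rw [h8, map_zero, zero_mul, zero_add] at hmem
        rcases mul_eq_zero.1 hmem with h9 | h9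
        · rcases hc with h10 | h10
          · exact h10 h8
          · exact h10 ((map_eq_zero_iff _ (algebraMap k E).injective).1 h9)
        · exact hl0 h9
      refine ⟨-c' / c, ?_⟩
      have h8 : algebraMap k E c ≠ 0 := by
        rwa [Ne, map_eq_zero_iff _ (algebraMap k E).injective]
      rw [map_div₀, map_neg, div_mul_eq_mul_div, eq_div_iff h8]
      linear_combination hmem
    choose a ha using h4
    -- all quotients lie in `k(t)`
    have h5 : ∀ j, P j = Polynomial.C (e l0) *
        (∑ m : Fin M, Polynomial.C (a (j, m)) * Polynomial.X ^ (m : ℕ)).map (algebraMap k E) := by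
      intro j
      rw [← he, Psi, Polynomial.map_sum, Finset.mul_sum]
      refine Finset.sum_congr rfl fun m _ => ?_
      rw [ha]
      simp
      ring
    set p : σ → Polynomial k := fun j =>
      ∑ m : Fin M, Polynomial.C (a (j, m)) * Polynomial.X ^ (m : ℕ) with hp
    have hCe : algebraMap (Polynomial E) (RatFunc E) (Polynomial.C (e l0)) ≠ 0 := by
      rw [Ne, map_eq_zero_iff _ hinj, Polynomial.C_eq_zero]
      exact hl0
    have haev : ∀ q : Polynomial k, Polynomial.aeval
        (algebraMap (Polynomial E) (RatFunc E) Polynomial.X) q =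
        algebraMap (Polynomial E) (RatFunc E) (q.map (algebraMap k E)) := by
      intro q
      have h := Polynomial.aeval_algebraMap_apply (RatFunc E) (Polynomial.X : Polynomial E) q
      rw [h, ← Polynomial.aeval_map_algebraMap E, Polynomial.aeval_X_left_apply]
    have h6 : (⊤ : IntermediateField k (RatFunc E)) ≤
        IntermediateField.adjoin k {algebraMap (Polynomial E) (RatFunc E) Polynomial.X} := by
      rw [← hadj, IntermediateField.adjoin_le_iff]
      rintro _ ⟨j, rfl⟩
      simp only
      rw [h5 j, h5 i, map_mul, map_mul, mul_div_mul_left _ _ hCe, SetLike.mem_coe,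
        IntermediateField.mem_adjoin_simple_iff]
      exact ⟨p j, p i, by rw [haev, haev]⟩
    have h7 : algebraMap (Polynomial E) (RatFunc E) (Polynomial.C e0) ∈
        IntermediateField.adjoin k {algebraMap (Polynomial E) (RatFunc E) Polynomial.X} :=
      h6 trivial
    rw [IntermediateField.mem_adjoin_simple_iff] at h7
    obtain ⟨r, s, h8⟩ := h7
    rw [haev, haev] at h8
    have he00 : e0 ≠ 0 := by
      rintro rfl
      exact he0 (isAlgebraic_zero)
    have hs : s.map (algebraMap k E) ≠ 0 := by
      intro h9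
      rw [h9, map_zero, div_zero, map_eq_zero_iff _ hinj, Polynomial.C_eq_zero] at h8
      exact he00 h8
    have h9 : Polynomial.C e0 * s.map (algebraMap k E) = r.map (algebraMap k E) := by
      apply hinj
      rw [map_mul, h8, div_mul_cancel₀]
      rwa [Ne, map_eq_zero_iff _ hinj]
    have hs' : s ≠ 0 := by
      rintro rfl
      exact hs (Polynomial.map_zero _)
    have h10 := congrArg (fun q => Polynomial.coeff q s.natDegree) h9
    simp only [Polynomial.coeff_C_mul, Polynomial.coeff_map] at h10
    have h11 : algebraMap k E (s.coeff s.natDegree) ≠ 0 := by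
      rw [Ne, map_eq_zero_iff _ (algebraMap k E).injective]
      exact Polynomial.leadingCoeff_ne_zero.2 hs'
    have h12 : e0 = algebraMap k E (r.coeff s.natDegree / s.coeff s.natDegree) := by
      rw [map_div₀, eq_div_iff h11, h10]
    exact he0 (h12 ▸ isAlgebraic_algebraMap _)
  · intro K _ _ b hb hbD
    have hb' : ∀ (g : MvPolynomial (σ × Fin M) k) (n : ℕ), g.IsHomogeneous n → aeval e g = 0 →
        aeval b g = 0 := fun g n hg h4 => hb g n hg ((key0 g n hg).2 h4)
    rw [hD, map_mul, map_mul] at hbD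
    have hb2 := right_ne_zero_of_mul hbD
    have hb1 := right_ne_zero_of_mul (left_ne_zero_of_mul hbD)
    refine ⟨?_, ?_, ?_, ?_, l0, ?_⟩
    · intro f hf
      rw [← sum_homogeneousComponent f, map_sum]
      refine Finset.sum_eq_zero fun n _ => ?_
      rw [← gen_map]
      refine (gen_ph (homogeneousComponent_isHomogeneous n f)).transfer hb' ?_
      rw [hP]
      exact (hI _ _ (homogeneousComponent_isHomogeneous n f)).1 (hH f hf n)
    · have h4 : PH (Gen M (ψ none) - Polynomial.X * Gen M φ₀) d := by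
        refine (gen_ph (hψ _)).sub ?_
        have h5 := PH.X.mul (gen_ph (M := M) hφ₀)
        rwa [zero_add] at h5
      have h5 := h4.transfer hb' (by
        rw [map_sub, map_mul, hP, hP, h2]
        simp [hκd])
      rw [map_sub, map_mul, gen_map, gen_map, sub_eq_zero] at h5
      rw [h5]
      simp
    · intro h4
      apply hb2
      rw [← gen_coeff, h4, Polynomial.coeff_zero]
    · intro l l'
      have h4 : PH (Gen M (φ l) * Polynomial.C (X l') - Gen M (φ l') * Polynomial.C (X l))
          (d + 1) :=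
        ((gen_ph (hψ _)).mul (PH.C (isHomogeneous_X k l'))).sub
          ((gen_ph (hψ _)).mul (PH.C (isHomogeneous_X k l)))
      have h5 := h4.transfer hb' (by
        rw [map_sub, map_mul, map_mul, hP, hP, h3, h3]
        simp
        ring)
      rw [map_sub, map_mul, map_mul, gen_map, gen_map, sub_eq_zero] at h5
      simpa using h5
    · intro h4
      apply hb1
      rw [← gen_coeff, h4, Polynomial.coeff_zero]

end Pool.Agent.Helper97.RU
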