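import Pool.Agent.Helper97.RU.Defs
import Pool.Agent.Helper97.GM.Semi

/-!
# Local equations
-/

set_option autoImplicit false

namespace Pool.Agent.Helper97.RU

open MvPolynomial Pool.Agent.Helper97.GM

variable {k : Type*} [Field k] {σ : Type*} [Fintype σ]

/-- Local equations of `X` at `p`: elements of `I` whose gradients at `p` are a basis of the span of
the gradients of all elements of `I`. -/
def LocEq (I : Ideal (MvPolynomial σ k)) {K : Type*} [Field K] [Algebra k K] (p : σ → K) {c : ℕ}
    (g : Fin c → MvPolynomial σ k) : Prop :=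
  (∀ j, g j ∈ I) ∧ LinearIndependent K (fun j => fun i => aeval p (pderiv i (g j))) ∧
    ∀ f ∈ I, (fun i => aeval p (pderiv i f)) ∈
      Submodule.span K (Set.range (fun j => fun i => aeval p (pderiv i (g j))))

/-- The gradient at `p`. -/
private noncomputable def gr {K : Type*} [Field K] [Algebra k K] (p : σ → K)
    (f : MvPolynomial σ k) : σ → K := fun i => aeval p (pderiv i f)

private theorem gr_add {K : Type*} [Field K] [Algebra k K] (p : σ → K)
    (f g : MvPolynomial σ k) : gr p (f + g) = gr p f + gr p g := by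
  funext i; simp [gr]

private theorem gr_sum {K : Type*} [Field K] [Algebra k K] (p : σ → K) {ι : Type*}
    (s : Finset ι) (f : ι → MvPolynomial σ k) : gr p (∑ j ∈ s, f j) = ∑ j ∈ s, gr p (f j) := by
  funext i; simp [gr, Finset.sum_apply]

private theorem gr_mul {K : Type*} [Field K] [Algebra k K] {p : σ → K}
    (h : MvPolynomial σ k) {g : MvPolynomial σ k} (hg : aeval p g = 0) :
    gr p (h * g) = aeval p h • gr p g := by
  funext i
  simp only [gr, Derivation.leibniz, smul_eq_mul, map_add, map_mul, hg, zero_mul, add_zero,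
    Pi.smul_apply]

theorem exists_locEq {I : Ideal (MvPolynomial σ k)} {K : Type*} [Field K] [Algebra k K] {p : σ → K}
    (hp : On I p) (hs : SmoothPt I p) : ∃ (c : ℕ) (g : Fin c → MvPolynomial σ k), LocEq I p g := by
  obtain ⟨c, f, d, h, e, h1, -, -, h4, h5, h6⟩ := hs
  exact ⟨c, f, h1, h4, fun g hg => semi_grad hp h1 h5 hg (h6 g hg)⟩

/-- A point with coordinates in a domain `R` which specialises to `p` and at which local equations at
`p` vanish lies in `X`. -/
theorem cut' {I : Ideal (MvPolynomial σ k)} {K : Type*} [Field K] [Algebra k K] {p : σ → K}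
    (hp : On I p) (hs : SmoothPt I p) {c : ℕ} {g : Fin c → MvPolynomial σ k} (hg : LocEq I p g)
    {R : Type*} [CommRing R] [IsDomain R] [Algebra k R] (ε : R →ₐ[k] K) {y : σ → R}
    (hy : ∀ i, ε (y i) = p i) (hy0 : ∀ j, aeval y (g j) = 0) : On I y := by
  obtain ⟨hgI, hind, hspan⟩ := hg
  obtain ⟨c', f, d, h, e, hf, -, -, hfind, hh, hI2⟩ := hs
  have hcc : c = c' := by
    have h1 : Submodule.span K (Set.range fun j => gr p (g j)) =
        Submodule.span K (Set.range fun j => gr p (f j)) := by
      apply le_antisymm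
      · rw [Submodule.span_le]
        rintro _ ⟨j, rfl⟩
        exact semi_grad hp hf hh (hgI j) (hI2 _ (hgI j))
      · rw [Submodule.span_le]
        rintro _ ⟨j, rfl⟩
        exact hspan _ (hf j)
    have h2 := finrank_span_eq_card (R := K) (b := fun j => gr p (g j)) hind
    have h3 := finrank_span_eq_card (R := K) (b := fun j => gr p (f j)) hfind
    rw [h1, h3] at h2
    simpa using h2.symm
  subst hcc
  -- specialisation
  have hct : ∀ q : MvPolynomial σ k, ε (aeval y q) = aeval p q := by
    intro q
    have h1 := MvPolynomial.comp_aeval_apply (R := k) y ε q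
    rw [h1]
    congr 1
    congr 1
    funext i
    exact hy i
  -- the matrix
  have hA : ∀ j, ∃ a : Fin c → MvPolynomial σ k, ∑ i, a i * f i = h * g j := fun j => by
    obtain ⟨a, ha⟩ := (Ideal.mem_span_range_iff_exists_fun).1 (hI2 _ (hgI j))
    exact ⟨a, ha⟩
  choose a ha using hA
  let A : Matrix (Fin c) (Fin c) (MvPolynomial σ k) := Matrix.of a
  have hdetp : (A.map (aeval (R := k) p)).det ≠ 0 := by
    intro h0
    obtain ⟨r, hr, hr0⟩ := Matrix.exists_vecMul_eq_zero_iff.2 h0
    apply hr
    have h4 : ∑ j, (r j * aeval p h) • gr p (g j) = 0 := by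
      have h5 : ∀ j, (r j * aeval p h) • gr p (g j) = r j • ∑ i, aeval p (a j i) • gr p (f i) := by
        intro j
        rw [mul_smul, ← gr_mul h (hp _ (hgI j)), ← ha j, gr_sum]
        congr 1
        exact Finset.sum_congr rfl fun i _ => gr_mul (a j i) (hp _ (hf i))
      rw [Finset.sum_congr rfl fun j _ => h5 j]
      simp only [Finset.smul_sum, smul_smul]
      rw [Finset.sum_comm]
      refine Finset.sum_eq_zero fun i _ => ?_
      rw [← Finset.sum_smul]
      have h6 := congrFun hr0 i
      simp only [Matrix.vecMul, dotProduct, Matrix.map_apply, Pi.zero_apply] at h6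
      have h7 : ∑ j, r j * aeval p (a j i) = 0 := h6
      rw [h7, zero_smul]
    have h8 := (Fintype.linearIndependent_iff.1 hind) (fun j => r j * aeval p h) h4
    funext j
    exact (mul_eq_zero.1 (h8 j)).resolve_right hh
  have hdet : (A.map (aeval (R := k) y)).det ≠ 0 := by
    intro h0
    apply hdetp
    have h1 := congrArg ε.toRingHom h0
    rw [map_zero, RingHom.map_det] at h1
    have h2 : ε.toRingHom.mapMatrix (A.map (aeval (R := k) y)) = A.map (aeval (R := k) p) := by
      ext i j
      simp only [RingHom.mapMatrix_apply, Matrix.map_apply]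
      exact hct _
    rwa [h2] at h1
  have hv : (A.map (aeval (R := k) y)).mulVec (fun i => aeval y (f i)) = 0 := by
    funext j
    simp only [Matrix.mulVec, dotProduct, Matrix.map_apply, Pi.zero_apply]
    have h1 : ∑ i, aeval y (a j i) * aeval y (f i) = 0 := by
      have h2 := congrArg (aeval y) (ha j)
      rw [map_sum, map_mul, hy0 j, mul_zero] at h2
      simpa [map_mul] using h2
    exact h1
  have hf0 := Matrix.eq_zero_of_mulVec_eq_zero hdet hv
  have hhy : aeval y h ≠ 0 := by
    intro h0
    have h1 := hct h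
    rw [h0, map_zero] at h1
    exact hh h1.symm
  intro q hq
  obtain ⟨u, hu⟩ := (Ideal.mem_span_range_iff_exists_fun).1 (hI2 q hq)
  have h1 := congrArg (aeval y) hu
  rw [map_sum, map_mul] at h1
  have h2 : ∑ i, aeval y (u i * f i) = 0 := Finset.sum_eq_zero fun i _ => by
    rw [map_mul, congrFun hf0 i, Pi.zero_apply, mul_zero]
  rw [h2] at h1
  exact (mul_eq_zero.1 h1.symm).resolve_left hhy

/-- Common local equations at two points of a curve. -/
theorem two_points {I : Ideal (MvPolynomial σ k)} {Y : σ → Polynomial k} (hY : On I Y)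
    (h0 : SmoothPt I (fun i => (Y i).eval 0)) (h1 : SmoothPt I (fun i => (Y i).eval 1)) :
    ∃ (c : ℕ) (g : Fin c → MvPolynomial σ k), LocEq I (fun i => (Y i).eval 0) g ∧
      LocEq I (fun i => (Y i).eval 1) g := by
  have hev : ∀ s : k, On I (fun i => (Y i).eval s) := fun s f hf => by
    rw [← semi_eval, hY f hf, Polynomial.eval_zero]
  by_cases hne : (fun i => (Y i).eval 0) = (fun i => (Y i).eval 1)
  · obtain ⟨c, g, hg⟩ := exists_locEq (hev 0) h0
    exact ⟨c, g, hg, hne ▸ hg⟩
  obtain ⟨c, f, d, h, e, a1, -, -, a4, a5, a6⟩ := h0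
  obtain ⟨c', f', d', h', e', b1, -, -, b4, b5, b6⟩ := h1
  set Q : σ → RatFunc k := fun i => algebraMap (Polynomial k) (RatFunc k) (Y i) with hQ
  have hQI : On I Q := fun f hf => by
    rw [hQ, semi_aeval, hY f hf, map_zero]
  have hgen : ∀ (s : k) (q : MvPolynomial σ k), aeval (fun i => (Y i).eval s) q ≠ 0 →
      aeval Q q ≠ 0 := by
    intro s q hq h0
    rw [hQ, semi_aeval] at h0
    have h7 := (map_eq_zero_iff _ (IsFractionRing.injective (Polynomial k) (RatFunc k))).mp h0
    apply hq
    rw [← semi_eval, h7, Polynomial.eval_zero]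
  have aQ : LinearIndependent (RatFunc k) (fun j => fun i => aeval Q (pderiv i (f j))) :=
    semi_smooth_aux a4
  have bQ : LinearIndependent (RatFunc k) (fun j => fun i => aeval Q (pderiv i (f' j))) :=
    semi_smooth_aux b4
  have hcc : c = c' := by
    have h1 : Submodule.span (RatFunc k) (Set.range fun j => fun i => aeval Q (pderiv i (f j))) =
        Submodule.span (RatFunc k) (Set.range fun j => fun i => aeval Q (pderiv i (f' j))) := by
      apply le_antisymm
      · rw [Submodule.span_le]
        rintro _ ⟨j, rfl⟩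
        exact semi_grad hQI b1 (hgen _ _ b5) (a1 j) (b6 _ (a1 j))
      · rw [Submodule.span_le]
        rintro _ ⟨j, rfl⟩
        exact semi_grad hQI a1 (hgen _ _ a5) (b1 j) (a6 _ (b1 j))
    have h2 := finrank_span_eq_card aQ
    have h3 := finrank_span_eq_card bQ
    rw [h1, h3] at h2
    simpa using h2.symm
  subst hcc
  -- the affine function
  obtain ⟨i₀, hi₀⟩ := Function.ne_iff.mp hne
  have hd : (Y i₀).eval 1 - (Y i₀).eval 0 ≠ 0 := sub_ne_zero.mpr (Ne.symm hi₀)
  let l : MvPolynomial σ k :=
    C ((Y i₀).eval 1 - (Y i₀).eval 0)⁻¹ * (X i₀ - C ((Y i₀).eval 0))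
  have hl : ∀ s : k, aeval (fun i => (Y i).eval s) l =
      ((Y i₀).eval 1 - (Y i₀).eval 0)⁻¹ * ((Y i₀).eval s - (Y i₀).eval 0) := by
    intro s
    simp [l]
  have hl0 : aeval (fun i => (Y i).eval 0) l = 0 := by
    rw [hl, sub_self, mul_zero]
  have hl1 : aeval (fun i => (Y i).eval 1) l = 1 := by
    rw [hl, inv_mul_cancel₀ hd]
  let g : Fin c → MvPolynomial σ k := fun j => (1 - l) * f j + l * f' j
  have hg : ∀ j, g j ∈ I := fun j =>
    I.add_mem (I.mul_mem_left _ (a1 j)) (I.mul_mem_left _ (b1 j))
  have hgr : ∀ s : k, ∀ j, gr (fun i => (Y i).eval s) (g j) =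
      (1 - aeval (fun i => (Y i).eval s) l) • gr (fun i => (Y i).eval s) (f j) +
        aeval (fun i => (Y i).eval s) l • gr (fun i => (Y i).eval s) (f' j) := by
    intro s j
    change gr _ ((1 - l) * f j + l * f' j) = _
    rw [gr_add, gr_mul _ (hev s _ (a1 j)), gr_mul _ (hev s _ (b1 j)), map_sub, map_one]
  have e0 : (fun j => fun i => aeval (fun i => (Y i).eval 0) (pderiv i (g j))) =
      fun j => fun i => aeval (fun i => (Y i).eval 0) (pderiv i (f j)) := by
    funext j
    have h2 := hgr 0 j
    rw [hl0, sub_zero, one_smul, zero_smul, add_zero] at h2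
    exact h2
  have e1 : (fun j => fun i => aeval (fun i => (Y i).eval 1) (pderiv i (g j))) =
      fun j => fun i => aeval (fun i => (Y i).eval 1) (pderiv i (f' j)) := by
    funext j
    have h2 := hgr 1 j
    rw [hl1, sub_self, zero_smul, one_smul, zero_add] at h2
    exact h2
  refine ⟨c, g, ⟨hg, ?_, ?_⟩, ⟨hg, ?_, ?_⟩⟩
  · rw [e0]
    exact a4
  · rw [e0]
    exact fun q hq => semi_grad (hev 0) a1 a5 hq (a6 q hq)
  · rw [e1]
    exact b4
  · rw [e1]
    exact fun q hq => semi_grad (hev 1) b1 b5 hq (b6 q hq)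

/-- A right inverse of the matrix of the gradients along the curve, up to a factor which does not
vanish at the parameters `0` and `1`. -/
theorem exists_inverse [Infinite k] {c : ℕ} (g : Fin c → MvPolynomial σ k) (Y : σ → Polynomial k)
    (h0 : LinearIndependent k (fun j => fun i => aeval (fun i => (Y i).eval 0) (pderiv i (g j))))
    (h1 : LinearIndependent k (fun j => fun i => aeval (fun i => (Y i).eval 1) (pderiv i (g j)))) :
    ∃ (S : σ → Fin c → Polynomial k) (Δ : Polynomial k), Δ.eval 0 ≠ 0 ∧ Δ.eval 1 ≠ 0 ∧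
      ∀ j l, ∑ i, aeval Y (pderiv i (g j)) * S i l = if j = l then Δ else 0 := by
  classical
  obtain ⟨R0, hR0⟩ := semi_dual h0
  obtain ⟨R1, hR1⟩ := semi_dual h1
  let M : σ → Fin c → Polynomial k := fun i l =>
    (1 - Polynomial.X) * Polynomial.C (R0 i l) + Polynomial.X * Polynomial.C (R1 i l)
  let B : Matrix (Fin c) (Fin c) (Polynomial k) := fun j l =>
    ∑ i, aeval Y (pderiv i (g j)) * M i l
  refine ⟨fun i l => ∑ m, M i m * B.adjugate m l, B.det, ?_, ?_, ?_⟩
  · intro hz
    have e1 : (Polynomial.evalRingHom (0 : k)).mapMatrix B = 1 := by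
      ext j l
      simp only [RingHom.mapMatrix_apply, Matrix.map_apply, B, M, Polynomial.coe_evalRingHom,
        Polynomial.eval_finsetSum, Polynomial.eval_mul, Polynomial.eval_add, Polynomial.eval_sub,
        Polynomial.eval_one, Polynomial.eval_X, Polynomial.eval_C, sub_zero, one_mul, zero_mul,
        add_zero, semi_eval]
      rw [hR0 j l, Matrix.one_apply]
    have e2 : ((Polynomial.evalRingHom (0 : k)).mapMatrix B).det = 1 := by rw [e1, Matrix.det_one]
    rw [← RingHom.map_det, Polynomial.coe_evalRingHom, hz] at e2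
    exact zero_ne_one e2
  · intro hz
    have e1 : (Polynomial.evalRingHom (1 : k)).mapMatrix B = 1 := by
      ext j l
      simp only [RingHom.mapMatrix_apply, Matrix.map_apply, B, M, Polynomial.coe_evalRingHom,
        Polynomial.eval_finsetSum, Polynomial.eval_mul, Polynomial.eval_add, Polynomial.eval_sub,
        Polynomial.eval_one, Polynomial.eval_X, Polynomial.eval_C, sub_self, one_mul, zero_mul,
        zero_add, semi_eval]
      rw [hR1 j l, Matrix.one_apply]
    have e2 : ((Polynomial.evalRingHom (1 : k)).mapMatrix B).det = 1 := by rw [e1, Matrix.det_one]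
    rw [← RingHom.map_det, Polynomial.coe_evalRingHom, hz] at e2
    exact zero_ne_one e2
  · intro j l
    have e1 : ∑ i, aeval Y (pderiv i (g j)) * ∑ m, M i m * B.adjugate m l =
        (B * B.adjugate) j l := by
      rw [Matrix.mul_apply]
      simp only [Finset.mul_sum, B, Finset.sum_mul]
      rw [Finset.sum_comm]
      exact Finset.sum_congr rfl fun m _ => Finset.sum_congr rfl fun i _ => by ring
    rw [e1, Matrix.mul_adjugate, Matrix.smul_apply, Matrix.one_apply, smul_eq_mul, mul_ite, mul_one,
      mul_zero]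

end Pool.Agent.Helper97.RU
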