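import Pool.Agent.Helper97.RU.Hensel
import Pool.Agent.Helper97.RU.Cut

/-!
# Arcs outside a proper closed subset
-/

set_option autoImplicit false

namespace Pool.Agent.Helper97.RU

open MvPolynomial Pool.Agent.Helper97.GM

variable {k : Type*} [Field k] {σ : Type*} [Fintype σ]

/-- A matrix with independent rows has a right inverse. -/
private theorem exists_rightInv {c : ℕ} (G : Fin c → σ → k) (hG : LinearIndependent k G) :
    ∃ S : σ → Fin c → k, ∀ j l, ∑ i, G j i * S i l = if j = l then 1 else 0 := by
  classical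
  have hr : (Matrix.of G).rank = Fintype.card (Fin c) :=
    LinearIndependent.rank_matrix (M := Matrix.of G) hG
  have hsurj : Function.Surjective (Matrix.of G).mulVec := by
    have h1 : LinearMap.range (Matrix.of G).mulVecLin = ⊤ := by
      apply Submodule.eq_top_of_finrank_eq
      have h2 : Module.finrank k (LinearMap.range (Matrix.of G).mulVecLin) = (Matrix.of G).rank :=
        rfl
      rw [h2, hr]
      simp
    intro v
    obtain ⟨u, hu⟩ := LinearMap.range_eq_top.1 h1 v
    exact ⟨u, hu⟩
  obtain ⟨B, hB⟩ := Matrix.mulVec_surjective_iff_exists_right_inverse.1 hsurj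
  refine ⟨fun i l => B i l, fun j l => ?_⟩
  have := congrFun (congrFun hB j) l
  rw [Matrix.mul_apply, Matrix.one_apply] at this
  exact this

private theorem contract {A : Type*} [CommRing A] {c : ℕ} {G : Fin c → σ → A}
    {S : σ → Fin c → A} (hS : ∀ j l, ∑ i, G j i * S i l = if j = l then 1 else 0)
    (u : Fin c → A) (j : Fin c) : ∑ i, G j i * ∑ l, S i l * u l = u j := by
  simp_rw [Finset.mul_sum]
  rw [Finset.sum_comm]
  have h1 : ∀ l, ∑ i, G j i * (S i l * u l) = (if j = l then 1 else 0) * u l := by
    intro l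
    rw [← hS j l, Finset.sum_mul]
    exact Finset.sum_congr rfl fun i _ => by ring
  simp [h1]

/-- Two products which agree modulo the next power of the ideal. -/
private def Pr {B : Type*} [CommRing B] (J : Ideal B) (n : ℕ) (a b : B) : Prop :=
  a ∈ J ^ n ∧ b ∈ J ^ n ∧ a - b ∈ J ^ (n + 1)

private theorem Pr.mul {B : Type*} [CommRing B] {J : Ideal B} {n m : ℕ} {a b a' b' : B}
    (h : Pr J n a b) (h' : Pr J m a' b') : Pr J (n + m) (a * a') (b * b') := by
  refine ⟨?_, ?_, ?_⟩
  · rw [pow_add]
    exact Ideal.mul_mem_mul h.1 h'.1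
  · rw [pow_add]
    exact Ideal.mul_mem_mul h.2.1 h'.2.1
  · have e : a * a' - b * b' = a * (a' - b') + (a - b) * b' := by ring
    rw [e]
    refine Ideal.add_mem _ ?_ ?_
    · rw [add_assoc, pow_add]
      exact Ideal.mul_mem_mul h.1 h'.2.2
    · rw [add_right_comm, pow_add]
      exact Ideal.mul_mem_mul h.2.2 h'.2.1

private theorem Pr.one {B : Type*} [CommRing B] (J : Ideal B) : Pr J 0 1 1 := by
  refine ⟨by simp, by simp, by simp⟩

private theorem Pr.pow {B : Type*} [CommRing B] {J : Ideal B} {n : ℕ} {a b : B}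
    (h : Pr J n a b) (m : ℕ) : Pr J (m * n) (a ^ m) (b ^ m) := by
  induction m with
  | zero => simpa using Pr.one J
  | succ m ih =>
    rw [pow_succ, pow_succ, Nat.succ_mul]
    exact ih.mul h

private theorem Pr.prod {B : Type*} [CommRing B] {J : Ideal B} {τ : Type*} (s : Finset τ)
    {n : τ → ℕ} {a b : τ → B} (h : ∀ i, Pr J (n i) (a i) (b i)) :
    Pr J (∑ i ∈ s, n i) (∏ i ∈ s, a i) (∏ i ∈ s, b i) := by
  classical
  induction s using Finset.induction_on with
  | empty => simpa using Pr.one J
  | insert i s hi ih =>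
    rw [Finset.sum_insert hi, Finset.prod_insert hi, Finset.prod_insert hi]
    exact (h i).mul ih

private theorem sum_of_form {R : Type*} [CommSemiring R] {F : MvPolynomial σ R} {n : ℕ}
    (hF : F.IsHomogeneous n) {d : σ →₀ ℕ} (hd : d ∈ F.support) : ∑ i, d i = n := by
  have := hF (mem_support_iff.1 hd)
  rw [← this, Finsupp.weight_apply, Finsupp.sum_fintype]
  · simp
  · simp

private theorem form_sub {B : Type*} [CommRing B] [Algebra k B] {J : Ideal B} {y y' : σ → B}
    (h : ∀ i, Pr J 1 (y i) (y' i)) {F : MvPolynomial σ k} {n : ℕ} (hF : F.IsHomogeneous n) :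
    aeval y F - aeval y' F ∈ J ^ (n + 1) := by
  rw [aeval_def, aeval_def, eval₂_eq', eval₂_eq', ← Finset.sum_sub_distrib]
  refine Ideal.sum_mem _ fun d hd => ?_
  rw [← mul_sub]
  refine Ideal.mul_mem_left _ _ ?_
  have h2 := Pr.prod Finset.univ (J := J) (n := fun i => d i * 1) (a := fun i => y i ^ d i)
    (b := fun i => y' i ^ d i) (fun i => (h i).pow (d i))
  simp only [mul_one, sum_of_form hF hd] at h2
  exact h2.2.2

/-- reduction of the coefficients of a form -/
private theorem form_reduce {B : Type*} [CommRing B] [Algebra k B] {J : Ideal B} {y : σ → B}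
    (hy : ∀ i, y i ∈ J) (e : B →+* k) (he : ∀ b, b - algebraMap k B (e b) ∈ J)
    {P : MvPolynomial σ B} {n : ℕ} (hP : P.IsHomogeneous n) :
    eval y P - aeval y (map e P) ∈ J ^ (n + 1) := by
  have h2 : aeval y (map e P) = eval₂ ((algebraMap k B).comp e) y P := by
    rw [aeval_def, eval₂_map]
  have h3 : eval y P = eval₂ (RingHom.id _) y P := rfl
  rw [h2, h3, eval₂_eq', eval₂_eq', ← Finset.sum_sub_distrib]
  refine Ideal.sum_mem _ fun d hd => ?_
  rw [← sub_mul, pow_succ']
  refine Ideal.mul_mem_mul (he _) ?_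
  have h4 := (Pr.prod Finset.univ (J := J) (n := fun i => d i) (a := fun i => y i ^ d i)
    (b := fun i => y i ^ d i) (fun i =>
      ⟨Ideal.pow_mem_pow (hy i) _, Ideal.pow_mem_pow (hy i) _, by simp⟩)).1
  rwa [sum_of_form hP hd] at h4

private theorem krull {B : Type*} [CommRing B] [IsDomain B] [IsNoetherianRing B] {J : Ideal B}
    (h : J ≠ ⊤) {b : B} (hb : ∀ n : ℕ, b ∈ J ^ n) : b = 0 := by
  have h0 : b ∈ ⨅ n : ℕ, J ^ n := (Submodule.mem_iInf _).2 hb
  rwa [Ideal.iInf_pow_eq_bot_of_isDomain J h, Ideal.mem_bot] at h0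

omit [Fintype σ] in
/-- every element is congruent to its value -/
private theorem val_sub_mem {B : Type*} [CommRing B] [Algebra k B] (m : MvPolynomial σ k →ₐ[k] B)
    (J : Ideal B) (p : σ → k) (h : ∀ i, m (X i - C (p i)) ∈ J) (q : MvPolynomial σ k) :
    m q - algebraMap k B (aeval p q) ∈ J := by
  induction q using MvPolynomial.induction_on with
  | C a =>
    have h1 : m (C a) = algebraMap k B a := m.commutes a
    rw [h1, aeval_C, Algebra.algebraMap_self_apply, sub_self]
    exact J.zero_mem
  | add q r hq hr =>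
    have e : m (q + r) - algebraMap k B (aeval p (q + r)) =
        (m q - algebraMap k B (aeval p q)) + (m r - algebraMap k B (aeval p r)) := by
      simp only [map_add]; ring
    rw [e]
    exact J.add_mem hq hr
  | mul_X q i hq =>
    have h1 : m (C (p i)) = algebraMap k B (p i) := m.commutes (p i)
    have e : m (q * X i) - algebraMap k B (aeval p (q * X i)) =
        m q * m (X i - C (p i)) + (m q - algebraMap k B (aeval p q)) * algebraMap k B (p i) := by
      rw [map_sub, h1, map_mul, map_mul, aeval_X, map_mul]; ring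
    rw [e]
    exact J.add_mem (J.mul_mem_left _ (h i)) (J.mul_mem_right _ hq)

/-- scaling of forms -/
private theorem form_smul {B : Type*} [CommRing B] [Algebra k B] (X' : B) (δ : σ → B)
    {F : MvPolynomial σ k} {n : ℕ} (hF : F.IsHomogeneous n) :
    aeval (fun i => X' * δ i) F = X' ^ n * aeval δ F := by
  rw [aeval_def, aeval_def, eval₂_eq', eval₂_eq', Finset.mul_sum]
  refine Finset.sum_congr rfl fun d hd => ?_
  simp only [mul_pow, Finset.prod_mul_distrib, Finset.prod_pow_eq_pow_sum, sum_of_form hF hd]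
  ring

omit [Fintype σ] in
private theorem aeval_CC (p : σ → k) (q : MvPolynomial σ k) :
    aeval (fun i => (PowerSeries.C (C (p i)) : PowerSeries (MvPolynomial σ k))) q =
      PowerSeries.C (C (aeval p q)) := by
  have h := aeval_algebraMap_apply (R := k) (PowerSeries (MvPolynomial σ k)) p q
  simpa [PowerSeries.algebraMap_apply, MvPolynomial.algebraMap_eq, Function.comp_def] using h

/-- the first order term of an equation along an arc -/
private theorem first_order {p : σ → k} {q : MvPolynomial σ k} (hq : aeval p q = 0)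
    {δ γ : σ → PowerSeries (MvPolynomial σ k)}
    (hγ : ∀ i, γ i = PowerSeries.C (C (p i)) + PowerSeries.X * δ i) (h0 : aeval γ q = 0) :
    ∑ i, C (aeval p (pderiv i q)) * PowerSeries.constantCoeff (δ i) = 0 := by
  have h1 := taylor (Ideal.span {(PowerSeries.X : PowerSeries (MvPolynomial σ k))})
    (fun i => PowerSeries.C (C (p i))) (fun i => PowerSeries.X * δ i)
    (fun i => Ideal.mul_mem_right _ _ (Ideal.mem_span_singleton_self _)) q
  have e2 : (fun i => PowerSeries.C (C (p i)) + PowerSeries.X * δ i) = γ :=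
    funext fun i => (hγ i).symm
  rw [e2, h0, aeval_CC, hq] at h1
  simp only [aeval_CC] at h1
  rw [Ideal.span_singleton_pow, Ideal.mem_span_singleton] at h1
  obtain ⟨r, hr⟩ := h1
  have e3 : PowerSeries.X * (∑ i, PowerSeries.C (C (aeval p (pderiv i q))) * δ i) =
      PowerSeries.X * (-(PowerSeries.X * r)) := by
    have e4 : ∑ i, PowerSeries.C (C (aeval p (pderiv i q))) * (PowerSeries.X * δ i) =
        PowerSeries.X * (∑ i, PowerSeries.C (C (aeval p (pderiv i q))) * δ i) := by
      rw [Finset.mul_sum]
      exact Finset.sum_congr rfl fun i _ => by ring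
    rw [e4, C_0, map_zero, sub_zero, zero_sub] at hr
    linear_combination -hr
  have e5 := mul_left_cancel₀ PowerSeries.X_ne_zero e3
  have e6 := congrArg (PowerSeries.constantCoeff (R := MvPolynomial σ k)) e5
  simpa using e6

/-- The arc in the generic direction detects membership in the ideal. -/
private theorem mem_of_generic {I : Ideal (MvPolynomial σ k)} (hI : I.IsPrime) {p : σ → k}
    (hp : On I p) {c : ℕ} {f : Fin c → MvPolynomial σ k} (hf : ∀ j, f j ∈ I)
    {S : σ → Fin c → k} {w₀ : σ → MvPolynomial σ k}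
    (hw₀ : ∀ i, w₀ i = X i - ∑ l, C (S i l) * ∑ i', C (aeval p (pderiv i' (f l))) * X i')
    {δ γ : σ → PowerSeries (MvPolynomial σ k)}
    (hγ : ∀ i, γ i = PowerSeries.C (C (p i)) + PowerSeries.X * δ i)
    (hδ : ∀ i, PowerSeries.constantCoeff (δ i) = w₀ i) (hγI : On I γ)
    {g : MvPolynomial σ k} (hg : aeval γ g = 0) : g ∈ I := by
  have := hI
  let mkI : MvPolynomial σ k →ₐ[k] (MvPolynomial σ k ⧸ I) := Ideal.Quotient.mkₐ k I
  let εB : (MvPolynomial σ k ⧸ I) →ₐ[k] k := Ideal.Quotient.liftₐ I (aeval p) (fun a ha => hp a ha)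
  let Γ : (MvPolynomial σ k ⧸ I) →ₐ[k] PowerSeries (MvPolynomial σ k) :=
    Ideal.Quotient.liftₐ I (aeval γ) (fun a ha => hγI a ha)
  let cc : PowerSeries (MvPolynomial σ k) →ₐ[k] MvPolynomial σ k :=
    { toRingHom := PowerSeries.constantCoeff (R := MvPolynomial σ k)
      commutes' := fun r => by simp [PowerSeries.algebraMap_apply] }
  have hεmk : ∀ q, εB (mkI q) = aeval p q := fun q => rfl
  have hΓmk : ∀ q, Γ (mkI q) = aeval γ q := fun q => rfl
  set y : σ → (MvPolynomial σ k ⧸ I) := fun i => mkI (X i - C (p i)) with hy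
  set J : Ideal (MvPolynomial σ k ⧸ I) := Ideal.span (Set.range y) with hJ
  have hyJ : ∀ i, y i ∈ J := fun i => Ideal.subset_span ⟨i, rfl⟩
  have hΓy : ∀ i, Γ (y i) = PowerSeries.X * δ i := by
    intro i
    rw [hy]
    change Γ (mkI (X i - C (p i))) = _
    rw [hΓmk, map_sub, aeval_X, hγ, aeval_C, PowerSeries.algebraMap_apply,
      MvPolynomial.algebraMap_eq]
    ring
  -- every element is congruent to its value at the origin
  have hval : ∀ b : MvPolynomial σ k ⧸ I, b - algebraMap k _ (εB b) ∈ J := by
    intro b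
    obtain ⟨q, rfl⟩ := Ideal.Quotient.mk_surjective b
    exact val_sub_mem mkI J p hyJ q
  -- powers of `J` along the arc
  have hΓJ : ∀ n, ∀ b ∈ J ^ n, (PowerSeries.X : PowerSeries (MvPolynomial σ k)) ^ n ∣ Γ b := by
    intro n b hb
    have h1 : J.map Γ.toRingHom ≤ Ideal.span {PowerSeries.X} := by
      rw [hJ, Ideal.map_span, Ideal.span_le]
      rintro _ ⟨_, ⟨i, rfl⟩, rfl⟩
      change Γ (y i) ∈ _
      rw [hΓy]
      exact Ideal.mul_mem_right _ _ (Ideal.mem_span_singleton_self _)
    have h2 : Γ b ∈ (J ^ n).map Γ.toRingHom := Ideal.mem_map_of_mem Γ.toRingHom hb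
    rw [Ideal.map_pow] at h2
    have h3 := Ideal.pow_right_mono h1 n h2
    rwa [Ideal.span_singleton_pow, Ideal.mem_span_singleton] at h3
  -- the coordinates and their projections
  set y' : σ → (MvPolynomial σ k ⧸ I) := fun i => aeval y (w₀ i) with hy'
  have hyy : ∀ i, y i - y' i ∈ J ^ 2 := by
    -- the linear parts of the equations
    have h1 : ∀ l, ∑ i', algebraMap k _ (aeval p (pderiv i' (f l))) * y i' ∈ J ^ 2 := by
      intro l
      have h2 := taylor J (fun i => algebraMap k (MvPolynomial σ k ⧸ I) (p i)) y hyJ (f l)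
      have h3 : (fun i => algebraMap k (MvPolynomial σ k ⧸ I) (p i) + y i) =
          fun i => mkI (X i) := by
        funext i
        have h4 : y i = mkI (X i) - mkI (C (p i)) := map_sub _ _ _
        have h5 : mkI (C (p i)) = algebraMap k _ (p i) := mkI.commutes (p i)
        rw [h4, h5]
        ring
      have h4 : aeval (fun i => mkI (X i)) (f l) = 0 := by
        have h5 := congrArg (fun φ => φ (f l))
          (comp_aeval (f := (X : σ → MvPolynomial σ k)) mkI)
        have h6 : mkI (aeval X (f l)) = aeval (fun i => mkI (X i)) (f l) := h5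
        rw [← h6, aeval_X_left_apply]
        exact Ideal.Quotient.eq_zero_iff_mem.2 (hf l)
      have h5 : ∀ q : MvPolynomial σ k, aeval (fun i => algebraMap k (MvPolynomial σ k ⧸ I) (p i)) q =
          algebraMap k _ (aeval p q) := fun q => aeval_algebraMap_apply (R := k) _ p q
      rw [h3, h4, h5, hp _ (hf l), map_zero, sub_zero, zero_sub] at h2
      simp only [h5] at h2
      exact (Submodule.neg_mem_iff _).1 h2
    intro i
    have h2 : y i - y' i = ∑ l, algebraMap k _ (S i l) *
        ∑ i', algebraMap k _ (aeval p (pderiv i' (f l))) * y i' := by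
      rw [hy']
      simp only [hw₀, map_sub, aeval_X, map_sum, map_mul, aeval_C, sub_sub_cancel]
    rw [h2]
    exact Ideal.sum_mem _ fun l _ => Ideal.mul_mem_left _ _ (h1 l)
  have hpr : ∀ i, Pr J 1 (y i) (y' i) := by
    intro i
    refine ⟨by simpa using hyJ i, ?_, by simpa using hyy i⟩
    have h1 : y' i = y i - (y i - y' i) := by ring
    rw [h1, pow_one]
    exact Ideal.sub_mem _ (hyJ i) (Ideal.pow_le_self two_ne_zero (hyy i))
  have key : ∀ n, ∀ b : MvPolynomial σ k ⧸ I,
      (PowerSeries.X : PowerSeries (MvPolynomial σ k)) ^ n ∣ Γ b → b ∈ J ^ n := by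
    intro n
    induction n with
    | zero => intro b _; simp
    | succ n ih =>
      intro b hb
      have hbn : b ∈ J ^ n := ih b ((pow_dvd_pow _ (Nat.le_succ n)).trans hb)
      rw [hJ, Ideal.mem_span_pow_iff_exists_isHomogeneous] at hbn
      obtain ⟨P, hP, hPb⟩ := hbn
      set F : MvPolynomial σ k := MvPolynomial.map εB.toRingHom P with hF
      have hFh : F.IsHomogeneous n := hP.map _
      have h1 : b - aeval y F ∈ J ^ (n + 1) := by
        rw [← hPb]
        exact form_reduce hyJ εB.toRingHom hval hP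
      have h2 : (PowerSeries.X : PowerSeries (MvPolynomial σ k)) ^ (n + 1) ∣ Γ (aeval y F) := by
        have h3 := hΓJ _ _ h1
        rw [map_sub] at h3
        have h4 := dvd_sub hb h3
        rwa [sub_sub_cancel] at h4
      have h3 : Γ (aeval y F) = PowerSeries.X ^ n * aeval δ F := by
        have h4 : Γ (aeval y F) = aeval (fun i => Γ (y i)) F := by
          have h5 := congrArg (fun φ => φ F) (comp_aeval (f := y) Γ)
          exact h5
        rw [h4, ← form_smul _ _ hFh]
        congr 2
        funext i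
        exact hΓy i
      rw [h3, pow_succ] at h2
      have h4 : (PowerSeries.X : PowerSeries (MvPolynomial σ k)) ∣ aeval δ F :=
        (mul_dvd_mul_iff_left (pow_ne_zero _ PowerSeries.X_ne_zero)).1 h2
      rw [PowerSeries.X_dvd_iff] at h4
      have h5 : aeval w₀ F = 0 := by
        have h6 := congrArg (fun φ => φ F) (comp_aeval (f := δ) cc)
        have h7 : PowerSeries.constantCoeff (aeval δ F) =
            aeval (fun i => PowerSeries.constantCoeff (δ i)) F := h6
        rw [← funext hδ, ← h7, h4]
      have h6 : aeval y' F = 0 := by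
        have h7 := congrArg (fun φ => φ F) (comp_aeval (f := w₀) (aeval y : MvPolynomial σ k →ₐ[k] _))
        have h8 : aeval y (aeval w₀ F) = aeval y' F := h7
        rw [← h8, h5, map_zero]
      have h7 := form_sub hpr hFh
      rw [h6, sub_zero] at h7
      have h8 := Ideal.add_mem _ h1 h7
      rwa [sub_add_cancel] at h8
  -- Krull
  have hJtop : J ≠ ⊤ := by
    intro htop
    have h1 : J ≤ RingHom.ker εB := by
      rw [hJ, Ideal.span_le]
      rintro _ ⟨i, rfl⟩
      change εB (y i) = 0
      rw [hy]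
      change εB (mkI (X i - C (p i))) = 0
      rw [hεmk]
      simp
    rw [htop] at h1
    have h2 : εB 1 = 0 := h1 (Submodule.mem_top : (1 : MvPolynomial σ k ⧸ I) ∈ (⊤ : Ideal _))
    rw [map_one] at h2
    exact one_ne_zero h2
  have h0 : mkI g = 0 := krull hJtop fun n => key n _ (by
    rw [hΓmk, hg]
    exact dvd_zero _)
  exact Ideal.Quotient.eq_zero_iff_mem.1 h0

/-- Every smooth point of the variety is the origin of an arc on which a given `g ∉ I` does not
vanish. -/
theorem exists_arc [Infinite k] {I : Ideal (MvPolynomial σ k)} (hI : I.IsPrime) {p : σ → k}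
    (hp : On I p) (hs : SmoothPt I p) {g : MvPolynomial σ k} (hg : g ∉ I) :
    ∃ α : σ → PowerSeries k, Arc I p α ∧ aeval α g ≠ 0 := by
  classical
  obtain ⟨c, f, hf⟩ := exists_locEq hp hs
  set G : Fin c → σ → k := fun j i => aeval p (pderiv i (f j)) with hGdef
  obtain ⟨S, hS⟩ := exists_rightInv G hf.2.1
  -- the generic direction
  set w₀ : σ → MvPolynomial σ k := fun i => X i - ∑ l, C (S i l) * ∑ i', C (G l i') * X i' with hw₀
  have haC : ∀ q : MvPolynomial σ k, aeval (fun i => (C (p i) : MvPolynomial σ k)) q =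
      C (aeval p q) := by
    intro q
    exact aeval_algebraMap_apply (R := k) (MvPolynomial σ k) p q
  have hSC : ∀ j l, ∑ i, (C (G j i) : MvPolynomial σ k) * C (S i l) = if j = l then 1 else 0 := by
    intro j l
    rw [Finset.sum_congr rfl fun i _ => (C_mul (σ := σ)).symm, ← map_sum, hS j l]
    split_ifs <;> simp
  obtain ⟨η, hη⟩ := hensel (A := MvPolynomial σ k) f (fun i => C (p i)) (fun i l => C (S i l)) 1
    (fun j => by rw [haC, hp _ (hf.1 j), C_0])
    (fun j l => by
      rw [← hSC j l]
      exact Finset.sum_congr rfl fun i _ => by rw [haC])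
    (fun i => PowerSeries.C (w₀ i))
  set δ : σ → PowerSeries (MvPolynomial σ k) := fun i =>
    PowerSeries.C (w₀ i) + ∑ l, PowerSeries.C (C (S i l)) * η l with hδ
  set γ : σ → PowerSeries (MvPolynomial σ k) := fun i =>
    PowerSeries.C (C (p i)) + PowerSeries.X * δ i with hγ
  have hγf : ∀ j, aeval γ (f j) = 0 := by
    intro j
    have h1 := hη j
    have h2 : (fun i => PowerSeries.C (C (p i)) +
      PowerSeries.C (1 : MvPolynomial σ k) ^ 2 * PowerSeries.X * PowerSeries.C (w₀ i) +
      PowerSeries.C (1 : MvPolynomial σ k) * PowerSeries.X *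
        ∑ l, PowerSeries.C (C (S i l)) * η l) = γ := by
      funext i
      rw [hγ, hδ]
      simp only [map_one]
      ring
    rw [h2] at h1
    exact h1
  -- the evaluation at the origin
  let ε : PowerSeries (MvPolynomial σ k) →ₐ[k] k :=
    { toRingHom := (constantCoeff (R := k) (σ := σ)).comp
        (PowerSeries.constantCoeff (R := MvPolynomial σ k))
      commutes' := fun r => by
        simp [PowerSeries.algebraMap_apply, MvPolynomial.algebraMap_eq] }
  have hεγ : ∀ i, ε (γ i) = p i := by
    intro i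
    change constantCoeff (PowerSeries.constantCoeff (γ i)) = p i
    rw [hγ]
    simp
  have hγI : On I γ := cut' hp hs hf ε hεγ hγf
  -- the first order term of the arc
  have hδ0 : ∀ i, PowerSeries.constantCoeff (δ i) = w₀ i := by
    have h1 : ∀ i, PowerSeries.constantCoeff (δ i) =
        w₀ i + ∑ l, C (S i l) * PowerSeries.constantCoeff (η l) := by
      intro i
      rw [hδ]
      simp
    have h2 : ∀ j, ∑ i, C (G j i) * w₀ i = 0 := by
      intro j
      have h3 : ∀ i, C (G j i) * w₀ i = C (G j i) * X i -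
          C (G j i) * ∑ l, C (S i l) * ∑ i', C (G l i') * X i' := fun i => by
        rw [hw₀]; ring
      rw [Finset.sum_congr rfl fun i _ => h3 i, Finset.sum_sub_distrib,
        contract hSC (fun l => ∑ i', C (G l i') * X i') j, sub_self]
    have h3 : ∀ j, PowerSeries.constantCoeff (η j) = 0 := by
      intro j
      have h4 := first_order (hp _ (hf.1 j)) (γ := γ) (δ := δ) (fun i => rfl) (hγf j)
      simp only [h1, mul_add, Finset.sum_add_distrib] at h4
      have h5 : ∑ i, C (aeval p (pderiv i (f j))) * w₀ i = 0 := h2 j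
      rw [h5, zero_add] at h4
      rw [← h4]
      exact (contract hSC (fun l => PowerSeries.constantCoeff (η l)) j).symm
    intro i
    rw [h1]
    simp [h3]
  have hne : aeval γ g ≠ 0 := fun h0 =>
    hg (mem_of_generic hI hp hf.1 (S := S) (w₀ := w₀) (fun i => rfl) (fun i => rfl) hδ0 hγI h0)
  -- specialisation
  obtain ⟨n, hn⟩ : ∃ n, PowerSeries.coeff n (aeval γ g) ≠ 0 := by
    by_contra hcon
    push Not at hcon
    exact hne (PowerSeries.ext fun n => by rw [hcon n, map_zero])
  obtain ⟨u, hu⟩ : ∃ u : σ → k, eval u (PowerSeries.coeff n (aeval γ g)) ≠ 0 := by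
    by_contra hcon
    push Not at hcon
    exact hn (MvPolynomial.funext fun u => by rw [hcon u, map_zero])
  set Φ : PowerSeries (MvPolynomial σ k) →ₐ[k] PowerSeries k :=
    PowerSeries.mapAlgHom (aeval u : MvPolynomial σ k →ₐ[k] k) with hΦ
  have hΦa : ∀ q : MvPolynomial σ k, aeval (fun i => Φ (γ i)) q = Φ (aeval γ q) := by
    intro q
    have h1 := congrArg (fun φ => φ q) (comp_aeval (f := γ) Φ)
    exact h1.symm
  refine ⟨fun i => Φ (γ i), ⟨fun q hq => ?_, fun i => ?_⟩, ?_⟩
  · rw [hΦa, hγI q hq, map_zero]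
  · change PowerSeries.constantCoeff (PowerSeries.mapAlgHom (aeval u) (γ i)) = p i
    rw [PowerSeries.mapAlgHom_apply, hγ]
    simp
  · rw [hΦa]
    intro h0
    have h1 := congrArg (PowerSeries.coeff n) h0
    rw [hΦ, PowerSeries.mapAlgHom_apply] at h1
    simp only [PowerSeries.coeff_map, map_zero] at h1
    exact hu h1

end Pool.Agent.Helper97.RU
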