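import Pool.Agent.Helper97.RU.Transport
import Pool.Agent.Helper97.RU.ExistsArc

/-!
# Rational curves through every point of the image of a rational map
-/

set_option autoImplicit false

namespace Pool.Agent.Helper97.RU

open MvPolynomial Pool.Agent.Helper97.GM

variable {k : Type*} [Field k] {σ ι : Type*} [Fintype σ]

omit [Fintype σ] in
theorem prp_symm {x y : σ → k} (h : Prp x y) : Prp y x := by
  obtain ⟨c, hc, h⟩ := h
  exact ⟨c⁻¹, inv_ne_zero hc, fun i => by rw [h i, ← mul_assoc, inv_mul_cancel₀ hc, one_mul]⟩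

omit [Fintype σ] in
theorem prp_trans {x y z : σ → k} (h : Prp x y) (h' : Prp y z) : Prp x z := by
  obtain ⟨c, hc, h⟩ := h
  obtain ⟨c', hc', h'⟩ := h'
  exact ⟨c' * c, mul_ne_zero hc' hc, fun i => by rw [h' i, h i, mul_assoc]⟩

omit [Fintype σ] in
theorem prp_smul {c : k} (hc : c ≠ 0) (x : σ → k) : Prp x (fun i => c * x i) :=
  ⟨c, hc, fun _ => rfl⟩

omit [Fintype σ] in
theorem prp_refl (x : σ → k) : Prp x x := ⟨1, one_ne_zero, fun _ => (one_mul _).symm⟩

theorem on_smul_ring {I : Ideal (MvPolynomial σ k)} (hI : Hom I) {L : Type*} [CommRing L]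
    [Algebra k L] (c : L) {x : σ → L} (hx : On I x) : On I (fun i => c * x i) := by
  intro f hf
  rw [← sum_homogeneousComponent f, map_sum]
  refine Finset.sum_eq_zero fun d _ => ?_
  rw [aeval_smul_form c x (homogeneousComponent_isHomogeneous d f), hx _ (hI f hf d), mul_zero]

theorem arc_smul {I : Ideal (MvPolynomial σ k)} (hI : Hom I) {p : σ → k} {α : σ → PowerSeries k}
    (h : Arc I p α) (c : k) :
    Arc I (fun i => c * p i) (fun i => PowerSeries.C c * α i) := by
  refine ⟨on_smul_ring hI _ h.1, fun i => ?_⟩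
  rw [map_mul, h.2 i, PowerSeries.constantCoeff_C]

theorem isLim_smul {δ : ℕ} {φ : ι → MvPolynomial σ k} (hφ : ∀ l, (φ l).IsHomogeneous δ)
    {α : σ → PowerSeries k} {b : ι → k} (h : IsLim φ α b) {c : k} (hc : c ≠ 0) :
    IsLim φ (fun i => PowerSeries.C c * α i) (fun l => c ^ δ * b l) := by
  obtain ⟨hb, N, h1, h2⟩ := h
  have key : ∀ l j, PowerSeries.coeff j (aeval (fun i => PowerSeries.C c * α i) (φ l)) =
      c ^ δ * PowerSeries.coeff j (aeval α (φ l)) := by
    intro l j
    rw [aeval_smul_form _ _ (hφ l), ← map_pow, PowerSeries.coeff_C_mul]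
  refine ⟨?_, N, fun l j hj => ?_, fun l => ?_⟩
  · intro h0
    apply hb
    funext l
    have := congrFun h0 l
    simp only [Pi.zero_apply, mul_eq_zero] at this
    rcases this with h3 | h3
    · exact absurd h3 (pow_ne_zero _ hc)
    · exact h3
  · rw [key, h1 l j hj, mul_zero]
  · rw [key, h2 l]

omit [Fintype σ] in
theorem exists_isLim {φ : ι → MvPolynomial σ k} {α : σ → PowerSeries k} {l₀ : ι}
    (h : aeval α (φ l₀) ≠ 0) : ∃ b, IsLim φ α b := by
  classical
  have hex : ∃ N, ∃ l, PowerSeries.coeff N (aeval α (φ l)) ≠ 0 := by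
    by_contra hcon
    push Not at hcon
    apply h
    ext n
    rw [hcon n l₀]
    simp
  refine ⟨fun l => PowerSeries.coeff (Nat.find hex) (aeval α (φ l)), ?_, Nat.find hex,
    fun l j hj => ?_, fun l => rfl⟩
  · intro h0
    obtain ⟨l, hl⟩ := Nat.find_spec hex
    exact hl (congrFun h0 l)
  · by_contra hne
    exact Nat.find_min hex hj ⟨l, hne⟩

omit [Fintype σ] in
theorem aeval_const_coeff {α : σ → PowerSeries k} {p : σ → k}
    (h : ∀ i, PowerSeries.constantCoeff (α i) = p i) (f : MvPolynomial σ k) :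
    PowerSeries.coeff 0 (aeval α f) = aeval p f := by
  have h1 : (PowerSeries.constantCoeff (R := k)).comp
      ((aeval α : MvPolynomial σ k →ₐ[k] PowerSeries k) : MvPolynomial σ k →+* PowerSeries k) =
      ((aeval p : MvPolynomial σ k →ₐ[k] k) : MvPolynomial σ k →+* k) := by
    apply MvPolynomial.ringHom_ext
    · intro a
      simp
    · intro i
      simp [h i]
  have h2 := DFunLike.congr_fun h1 f
  rw [PowerSeries.coeff_zero_eq_constantCoeff_apply]
  exact h2

/-- If the value at the origin is not zero it is the limit. -/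
theorem isLim_of_origin {I : Ideal (MvPolynomial σ k)} {φ : ι → MvPolynomial σ k} {p : σ → k}
    {α : σ → PowerSeries k} (hα : Arc I p α) (hp : (fun l => aeval p (φ l)) ≠ 0) {b : ι → k}
    (hb : IsLim φ α b) : b = fun l => aeval p (φ l) := by
  obtain ⟨hb0, N, h1, h2⟩ := hb
  have hN : N = 0 := by
    by_contra hN
    apply hp
    funext l
    have := h1 l 0 (by omega)
    rw [aeval_const_coeff hα.2] at this
    exact this
  subst hN
  funext l
  rw [← h2 l, aeval_const_coeff hα.2]

/-- `X` smooth and rationally chain connected, `φ` a nonconstant rational map: the closure of the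
image contains a rational curve through the image of every point at which `φ` is defined. -/
theorem rc [Finite ι] [IsAlgClosed k] {I : Ideal (MvPolynomial σ k)} (hI : I.IsPrime) (hH : Hom I)
    (hsm : ∀ x : σ → k, x ≠ 0 → On I x → SmoothPt I x)
    (hrc : ∀ x x' : σ → k, x ≠ 0 → x' ≠ 0 → On I x → On I x' → Relation.ReflTransGen (Joined I) x x')
    {δ : ℕ} {φ : ι → MvPolynomial σ k} (hφ : ∀ l, (φ l).IsHomogeneous δ) {x₀ x₁ : σ → k}
    (hx₀ : On I x₀) (hx₁ : On I x₁) (h₀ : x₀ ≠ 0) (h₁ : x₁ ≠ 0)
    (hφ₀ : (fun l => aeval x₀ (φ l)) ≠ 0) (hφ₁ : (fun l => aeval x₁ (φ l)) ≠ 0)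
    (hne : ¬ Prp (fun l => aeval x₀ (φ l)) (fun l => aeval x₁ (φ l))) :
    ∃ C : ι → Polynomial k, InB I φ C ∧
      Prp (fun l => aeval x₀ (φ l)) (fun l => (C l).eval 0) ∧ ¬ Const C := by
  by_contra hcon
  have hfree : ∀ C : ι → Polynomial k, InB I φ C →
      Prp (fun l => aeval x₀ (φ l)) (fun l => (C l).eval 0) → Const C := by
    intro C hC hP
    by_contra hc
    exact hcon ⟨C, hC, hP, hc⟩
  have : Infinite k := inferInstance
  -- the claim along the chain
  have claim : ∀ x : σ → k, Relation.ReflTransGen (Joined I) x₀ x →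
      ∀ (β : σ → PowerSeries k) (b' : ι → k), Arc I x β → IsLim φ β b' →
        Prp (fun l => aeval x₀ (φ l)) b' := by
    intro x hx
    induction hx with
    | refl =>
      intro β b' hβ hb'
      rw [isLim_of_origin hβ hφ₀ hb']
      exact prp_refl _
    | @tail x x' _ hj ih =>
      intro β b' hβ hb'
      rcases joined_cases hj with hP | ⟨Y, hY, hY0, hY1⟩
      · obtain ⟨c, hc, hcx⟩ := prp_symm hP
        have h2 := ih _ _ (by
          have := arc_smul hH hβ c
          rwa [← (funext hcx : x = fun i => c * x' i)] at this) (isLim_smul hφ hb' hc)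
        exact prp_trans h2 (prp_symm (prp_smul (pow_ne_zero δ hc) b'))
      · -- scale `β` to an arc at `Y(1)`
        obtain ⟨c', hc', hcx'⟩ := hY1
        have hβ' : Arc I (fun i => (Y i).eval 1) (fun i => PowerSeries.C c' * β i) := by
          have := arc_smul hH hβ c'
          rwa [← (funext hcx' : (fun i => (Y i).eval 1) = fun i => c' * x' i)] at this
        have hb1 := isLim_smul hφ hb' hc'
        -- an arc at `Y(0)`
        obtain ⟨l, hl⟩ : ∃ l, aeval x₀ (φ l) ≠ 0 := by
          by_contra hall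
          push Not at hall
          exact hφ₀ (funext hall)
        have hlI : φ l ∉ I := fun h => hl (hx₀ _ h)
        obtain ⟨α, hα, hαl⟩ := exists_arc hI (hY 0).2 (hsm _ (hY 0).1 (hY 0).2) hlI
        obtain ⟨b, hb⟩ := exists_isLim (φ := φ) hαl
        -- compare with `x`
        obtain ⟨c, hc, hcx⟩ := prp_symm hY0
        have hbx := ih _ _ (by
          have := arc_smul hH hα c
          rwa [← (funext hcx : x = fun i => c * (Y i).eval 0)] at this) (isLim_smul hφ hb hc)
        have hb0 : Prp (fun l => aeval x₀ (φ l)) b :=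
          prp_trans hbx (prp_symm (prp_smul (pow_ne_zero δ hc) b))
        have hT := transport hφ (on_poly fun s => (hY s).2) (hsm _ (hY 0).1 (hY 0).2)
          (hsm _ (hY 1).1 (hY 1).2) hα hβ' hb hb1
          (fun C hC hP => hfree C hC (prp_trans hb0 hP))
        exact prp_trans hb0 (prp_trans hT (prp_symm (prp_smul (pow_ne_zero δ hc') b')))
  -- the constant arc at `x₁`
  apply hne
  refine claim x₁ (hrc x₀ x₁ h₀ h₁ hx₀ hx₁) (fun i => PowerSeries.C (x₁ i)) _ ⟨?_, fun i => ?_⟩ ?_
  · intro f hf
    have h1 := aeval_algebraMap_apply (PowerSeries k) x₁ f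
    rw [hx₁ f hf, map_zero] at h1
    exact h1
  · rw [PowerSeries.constantCoeff_C]
  · refine ⟨hφ₁, 0, fun l j hj => absurd hj (Nat.not_lt_zero j), fun l => ?_⟩
    exact aeval_const_coeff (fun i => PowerSeries.constantCoeff_C _) (φ l)

end Pool.Agent.Helper97.RU
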