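import Pool.Agent.Helper97.GM.Joined

/-!
# Rational maps from rationally chain connected varieties: definitions

`I` is the ideal of a projective variety `X`, `φ` a finite family of forms of one degree, a rational
map from `X` to a projective space.
-/

set_option autoImplicit false

namespace Pool.Agent.Helper97.RU

open MvPolynomial Pool.Agent.Helper97.GM

variable {k : Type*} [Field k] {σ ι : Type*}

/-- The point `b` lies in the closure of the image of the rational map `φ`. -/
def InB (I : Ideal (MvPolynomial σ k)) (φ : ι → MvPolynomial σ k) {A : Type*} [CommRing A]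
    [Algebra k A] (b : ι → A) : Prop :=
  ∀ (g : MvPolynomial ι k) (e : ℕ), g.IsHomogeneous e → bind₁ φ g ∈ I → aeval b g = 0

/-- The polynomial vector `C` is constant as a point of the projective space. -/
def Const (C : ι → Polynomial k) : Prop :=
  ∃ (d : Polynomial k) (b : ι → k), ∀ l, C l = d * Polynomial.C (b l)

/-- `α` is an arc in `X` with origin `p`. -/
def Arc (I : Ideal (MvPolynomial σ k)) (p : σ → k) (α : σ → PowerSeries k) : Prop :=
  On I α ∧ ∀ i, PowerSeries.constantCoeff (α i) = p i

/-- `b` is the limit of the rational map `φ` along the arc `α`. -/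
def IsLim (φ : ι → MvPolynomial σ k) (α : σ → PowerSeries k) (b : ι → k) : Prop :=
  b ≠ 0 ∧ ∃ N : ℕ, (∀ l, ∀ j < N, PowerSeries.coeff j (aeval α (φ l)) = 0) ∧
    ∀ l, PowerSeries.coeff N (aeval α (φ l)) = b l

end Pool.Agent.Helper97.RU
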