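import Pool.Agent.Helper97.RU.Hensel
import Pool.Agent.Helper97.RU.Cut

/-!
# Families of arcs along a curve with two given members
-/

set_option autoImplicit false

namespace Pool.Agent.Helper97.RU

open MvPolynomial Pool.Agent.Helper97.GM

variable {k : Type*} [Field k] {σ : Type*} [Fintype σ]

/-- Ring homomorphisms over `k` commute with `aeval`. -/
private theorem fam_map {τ : Type*} {A B : Type*} [CommRing A] [CommRing B] [Algebra k A]
    [Algebra k B] (ρ : A →+* B) (hρ : ∀ r : k, ρ (algebraMap k A r) = algebraMap k B r)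
    (x : τ → A) (f : MvPolynomial τ k) : ρ (aeval x f) = aeval (fun i => ρ (x i)) f := by
  have h1 : ρ.comp (algebraMap k A) = algebraMap k B := RingHom.ext hρ
  rw [map_aeval, h1]
  rfl

omit [Fintype σ] in
private theorem fam_rescale (a : k) (x : σ → PowerSeries k) (f : MvPolynomial σ k) :
    PowerSeries.rescale a (aeval x f) = aeval (fun i => PowerSeries.rescale a (x i)) f := by
  refine fam_map _ (fun r => ?_) x f
  ext n
  rw [PowerSeries.coeff_rescale, PowerSeries.algebraMap_apply, PowerSeries.coeff_C]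
  split_ifs with h
  · rw [h, pow_zero, one_mul]
  · rw [mul_zero]

/-- The constant term splits off. -/
private theorem fam_split (f : PowerSeries k) :
    ∃ f' : PowerSeries k, f = PowerSeries.C (PowerSeries.constantCoeff f) + PowerSeries.X * f' := by
  have h1 : (PowerSeries.X : PowerSeries k) ∣
      f - PowerSeries.C (PowerSeries.constantCoeff f) := by
    rw [PowerSeries.X_dvd_iff, map_sub, PowerSeries.constantCoeff_C, sub_self]
  obtain ⟨f', hf'⟩ := h1
  exact ⟨f', by rw [← hf']; ring⟩

private theorem fam_eval (s : k) (q : Polynomial k) :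
    PowerSeries.map (Polynomial.evalRingHom s) (PowerSeries.C q) = PowerSeries.C (q.eval s) := by
  rw [PowerSeries.map_C]
  rfl

private theorem fam_spec {I : Ideal (MvPolynomial σ k)} {Y : σ → Polynomial k} {s : k}
    {α : σ → PowerSeries k} (hα : Arc I (fun i => (Y i).eval s) α) {c : ℕ}
    {g : Fin c → MvPolynomial σ k} (hg : ∀ j, g j ∈ I) {S : σ → Fin c → Polynomial k}
    {Δ : Polynomial k} (hΔ : Δ.eval s ≠ 0)
    (hS : ∀ j l, ∑ i, aeval Y (pderiv i (g j)) * S i l = if j = l then Δ else 0)
    {α' : σ → PowerSeries k}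
    (hα' : ∀ i, α i = PowerSeries.C (PowerSeries.constantCoeff (α i)) + PowerSeries.X * α' i)
    {w : σ → PowerSeries (Polynomial k)}
    (hw : ∀ i, PowerSeries.map (Polynomial.evalRingHom s) (w i) =
      PowerSeries.rescale (Δ.eval s ^ 2) (α' i))
    {η : Fin c → PowerSeries (Polynomial k)}
    (hη : ∀ j, aeval (fun i => PowerSeries.C (Y i) +
      PowerSeries.C Δ ^ 2 * PowerSeries.X * w i +
      PowerSeries.C Δ * PowerSeries.X * ∑ l, PowerSeries.C (S i l) * η l) (g j) = 0) (i : σ) :
    PowerSeries.map (Polynomial.evalRingHom s) (PowerSeries.C (Y i) +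
      PowerSeries.C Δ ^ 2 * PowerSeries.X * w i +
      PowerSeries.C Δ * PowerSeries.X * ∑ l, PowerSeries.C (S i l) * η l) =
      PowerSeries.rescale (Δ.eval s ^ 2) (α i) := by
  have hcc : ∀ i, PowerSeries.constantCoeff (PowerSeries.rescale (Δ.eval s ^ 2) (α i)) =
      (Y i).eval s := by
    intro i
    rw [← PowerSeries.coeff_zero_eq_constantCoeff_apply, PowerSeries.coeff_rescale, pow_zero,
      one_mul, PowerSeries.coeff_zero_eq_constantCoeff_apply, hα.2 i]
  have hsp : ∀ i, PowerSeries.map (Polynomial.evalRingHom s) (PowerSeries.C (Y i) +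
      PowerSeries.C Δ ^ 2 * PowerSeries.X * w i +
      PowerSeries.C Δ * PowerSeries.X * ∑ l, PowerSeries.C (S i l) * η l) =
      PowerSeries.rescale (Δ.eval s ^ 2) (α i) + PowerSeries.C (Δ.eval s) * PowerSeries.X *
        ∑ l, PowerSeries.C ((S i l).eval s) *
          PowerSeries.map (Polynomial.evalRingHom s) (η l) := by
    intro i
    have h1 : PowerSeries.rescale (Δ.eval s ^ 2) (α i) = PowerSeries.C ((Y i).eval s) +
        PowerSeries.C (Δ.eval s) ^ 2 * PowerSeries.X *
          PowerSeries.rescale (Δ.eval s ^ 2) (α' i) := by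
      conv_lhs => rw [hα' i]
      rw [map_add, map_mul, PowerSeries.rescale_X, hα.2 i, ← map_pow]
      congr 1
      ext n
      rw [PowerSeries.coeff_rescale, PowerSeries.coeff_C]
      split_ifs with h
      · rw [h, pow_zero, one_mul]
      · rw [mul_zero]
    rw [h1, map_add, map_add, map_mul, map_mul, map_mul, map_mul, map_pow, fam_eval, fam_eval,
      PowerSeries.map_X, hw i, map_sum]
    congr 2
    exact Finset.sum_congr rfl fun l _ => by rw [map_mul, fam_eval]
  have key := hensel_unique g (fun i l => (S i l).eval s) hΔ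
    (y := fun i => PowerSeries.rescale (Δ.eval s ^ 2) (α i))
    (η := fun l => PowerSeries.map (Polynomial.evalRingHom s) (η l)) ?_ ?_ ?_
  · rw [hsp i]
    have h2 : ∑ l, PowerSeries.C ((S i l).eval s) *
        PowerSeries.map (Polynomial.evalRingHom s) (η l) = 0 :=
      Finset.sum_eq_zero fun l _ => by
        have := congrFun key l
        simp only [Pi.zero_apply] at this
        rw [this, mul_zero]
    rw [h2, mul_zero, add_zero]
  · intro j l
    have h3 := congrArg (Polynomial.eval s) (hS j l)
    rw [Polynomial.eval_finsetSum] at h3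
    simp only [Polynomial.eval_mul, semi_eval] at h3
    simp only [hcc]
    rw [h3]
    split_ifs <;> simp
  · intro j
    rw [← fam_rescale, hα.1 _ (hg j), map_zero]
  · intro j
    have h4 := congrArg (PowerSeries.map (Polynomial.evalRingHom s)) (hη j)
    rw [map_zero, fam_map (PowerSeries.map (Polynomial.evalRingHom s))] at h4
    · simp only [hsp] at h4
      exact h4
    · intro r
      rw [PowerSeries.algebraMap_apply, PowerSeries.map_C, PowerSeries.algebraMap_apply]
      simp

theorem family [Infinite k] {I : Ideal (MvPolynomial σ k)} {Y : σ → Polynomial k} (hY : On I Y)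
    (h0 : SmoothPt I (fun i => (Y i).eval 0)) (h1 : SmoothPt I (fun i => (Y i).eval 1))
    {α β : σ → PowerSeries k} (hα : Arc I (fun i => (Y i).eval 0) α)
    (hβ : Arc I (fun i => (Y i).eval 1) β) :
    ∃ (γ : σ → PowerSeries (Polynomial k)) (a a' : k), a ≠ 0 ∧ a' ≠ 0 ∧ On I γ ∧
      (∀ i, PowerSeries.constantCoeff (γ i) = Y i) ∧
      (∀ i, PowerSeries.map (Polynomial.evalRingHom 0) (γ i) = PowerSeries.rescale a (α i)) ∧
      ∀ i, PowerSeries.map (Polynomial.evalRingHom 1) (γ i) = PowerSeries.rescale a' (β i) := by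
  obtain ⟨c, g, hg0, hg1⟩ := two_points hY h0 h1
  obtain ⟨S, Δ, hΔ0, hΔ1, hS⟩ := exists_inverse g Y hg0.2.1 hg1.2.1
  choose α' hα' using fun i => fam_split (α i)
  choose β' hβ' using fun i => fam_split (β i)
  let w : σ → PowerSeries (Polynomial k) := fun i =>
    PowerSeries.C (1 - Polynomial.X) * PowerSeries.map Polynomial.C
      (PowerSeries.rescale (Δ.eval 0 ^ 2) (α' i)) +
    PowerSeries.C Polynomial.X * PowerSeries.map Polynomial.C
      (PowerSeries.rescale (Δ.eval 1 ^ 2) (β' i))
  have hmm : ∀ (s : k) (f : PowerSeries k), PowerSeries.map (Polynomial.evalRingHom s)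
      (PowerSeries.map Polynomial.C f) = f := by
    intro s f
    ext n
    simp
  have hw0 : ∀ i, PowerSeries.map (Polynomial.evalRingHom 0) (w i) =
      PowerSeries.rescale (Δ.eval 0 ^ 2) (α' i) := by
    intro i
    simp only [w]
    rw [map_add, map_mul, map_mul, fam_eval, fam_eval, hmm, hmm]
    simp
  have hw1 : ∀ i, PowerSeries.map (Polynomial.evalRingHom 1) (w i) =
      PowerSeries.rescale (Δ.eval 1 ^ 2) (β' i) := by
    intro i
    simp only [w]
    rw [map_add, map_mul, map_mul, fam_eval, fam_eval, hmm, hmm]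
    simp
  obtain ⟨η, hη⟩ := hensel g Y S Δ (fun j => hY _ (hg0.1 j)) hS w
  have hcc : ∀ i, PowerSeries.constantCoeff (PowerSeries.C (Y i) +
      PowerSeries.C Δ ^ 2 * PowerSeries.X * w i +
      PowerSeries.C Δ * PowerSeries.X * ∑ l, PowerSeries.C (S i l) * η l) = Y i := by
    intro i
    simp
  let ε : PowerSeries (Polynomial k) →ₐ[k] k :=
    { (Polynomial.evalRingHom (0 : k)).comp (PowerSeries.constantCoeff (R := Polynomial k)) with
      commutes' := fun r => by
        simp [PowerSeries.algebraMap_apply] }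
  have hε : ∀ f, ε f = (PowerSeries.constantCoeff f).eval 0 := fun f => rfl
  refine ⟨_, Δ.eval 0 ^ 2, Δ.eval 1 ^ 2, pow_ne_zero 2 hΔ0, pow_ne_zero 2 hΔ1, ?_, hcc,
    fam_spec hα hg0.1 hΔ0 hS hα' hw0 hη, fam_spec hβ hg0.1 hΔ1 hS hβ' hw1 hη⟩
  refine cut' (fun f hf => ?_) h0 hg0 ε (fun i => ?_) hη
  · rw [← semi_eval, hY f hf, Polynomial.eval_zero]
  · rw [hε, hcc]

end Pool.Agent.Helper97.RU
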