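import Pool.Agent.Helper97.RU.Defs
import Pool.Agent.Helper97.GM.Taylor

/-!
# Newton's lemma over power series
-/

set_option autoImplicit false

namespace Pool.Agent.Helper97.RU

open MvPolynomial Pool.Agent.Helper97.GM

variable {k : Type*} [Field k] {σ : Type*} [Fintype σ]

/-- A contraction of `A⟦X⟧ ^ c` has a fixed point. -/
theorem fixed_point {A : Type*} [CommRing A] {c : ℕ}
    (T : (Fin c → PowerSeries A) → (Fin c → PowerSeries A))
    (hT : ∀ (u v : Fin c → PowerSeries A) (m : ℕ),
      (∀ l, (PowerSeries.X : PowerSeries A) ^ m ∣ u l - v l) →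
      ∀ l, (PowerSeries.X : PowerSeries A) ^ (m + 1) ∣ T u l - T v l) :
    ∃ u, T u = u := by
  let u : ℕ → (Fin c → PowerSeries A) := fun n => Nat.rec 0 (fun _ v => T v) n
  have hu : ∀ n, u (n + 1) = T (u n) := fun n => rfl
  have h1 : ∀ n l, (PowerSeries.X : PowerSeries A) ^ n ∣ u (n + 1) l - u n l := by
    intro n
    induction n with
    | zero =>
      intro l
      rw [pow_zero]
      exact one_dvd _
    | succ n ih =>
      intro l
      rw [hu (n + 1), hu n]
      exact hT _ _ n (fun l => by rw [← hu n]; exact ih l) l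
  have h2 : ∀ (l : Fin c) (m j : ℕ), m + 1 ≤ j →
      PowerSeries.coeff m (u j l) = PowerSeries.coeff m (u (m + 1) l) := by
    intro l m j hj
    induction j, hj using Nat.le_induction with
    | base => rfl
    | succ j hj ih =>
      have h3 := (PowerSeries.X_pow_dvd_iff.1 (h1 j l)) m (by omega)
      rw [map_sub, sub_eq_zero] at h3
      rw [h3, ih]
  let w : Fin c → PowerSeries A := fun l => PowerSeries.mk fun m => PowerSeries.coeff m (u (m + 1) l)
  have h4 : ∀ n l, (PowerSeries.X : PowerSeries A) ^ n ∣ w l - u n l := by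
    intro n l
    rw [PowerSeries.X_pow_dvd_iff]
    intro m hm
    rw [map_sub, PowerSeries.coeff_mk, h2 l m n hm, sub_self]
  refine ⟨w, ?_⟩
  funext l
  ext m
  have h5 : (PowerSeries.X : PowerSeries A) ^ (m + 1) ∣ T w l - w l := by
    have e : T w l - w l = (T w l - T (u m) l) - (w l - u (m + 1) l) := by
      rw [hu m]
      ring
    rw [e]
    exact dvd_sub (hT _ _ m (h4 m) l) (h4 (m + 1) l)
  have h6 := (PowerSeries.X_pow_dvd_iff.1 h5) m (Nat.lt_succ_self m)
  rwa [map_sub, sub_eq_zero] at h6

omit [Fintype σ] in
/-- Ring homomorphisms compatible with the scalars commute with evaluation. -/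
private theorem hom_aeval {R R' : Type*} [CommRing R] [CommRing R'] [Algebra k R] [Algebra k R']
    (φ : R →+* R') (hφ : ∀ a : k, φ (algebraMap k R a) = algebraMap k R' a) (y : σ → R)
    (g : MvPolynomial σ k) : φ (aeval y g) = aeval (fun i => φ (y i)) g := by
  induction g using MvPolynomial.induction_on with
  | C a => rw [aeval_C, aeval_C, hφ]
  | add p q hp hq => rw [map_add, map_add, map_add, hp, hq]
  | mul_X p j hp => rw [map_mul, map_mul, map_mul, hp, aeval_X, aeval_X]

omit [Fintype σ] in
private theorem C_aeval {A : Type*} [CommRing A] [Algebra k A] (Y : σ → A)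
    (g : MvPolynomial σ k) :
    aeval (fun i => PowerSeries.C (Y i)) g = PowerSeries.C (aeval Y g) :=
  (hom_aeval (PowerSeries.C : A →+* PowerSeries A) (fun a => by
    rw [PowerSeries.algebraMap_apply]) Y g).symm

omit [Fintype σ] in
private theorem cc_aeval {A : Type*} [CommRing A] [Algebra k A] (y : σ → PowerSeries A)
    (g : MvPolynomial σ k) :
    PowerSeries.constantCoeff (aeval y g) =
      aeval (fun i => PowerSeries.constantCoeff (y i)) g :=
  hom_aeval (PowerSeries.constantCoeff : PowerSeries A →+* A) (fun a => by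
    rw [PowerSeries.algebraMap_apply, PowerSeries.constantCoeff_C]) y g

omit [Fintype σ] in
/-- Evaluation is congruence preserving. -/
private theorem eval_congr {R : Type*} [CommRing R] (J : Ideal R) (z z' : σ → R)
    (h : ∀ i, z i - z' i ∈ J) (P : MvPolynomial σ R) : eval z P - eval z' P ∈ J := by
  induction P using MvPolynomial.induction_on with
  | C a => simp
  | add p q hp hq =>
    have e : eval z (p + q) - eval z' (p + q) = (eval z p - eval z' p) + (eval z q - eval z' q) := by
      rw [map_add, map_add]
      ring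
    rw [e]
    exact J.add_mem hp hq
  | mul_X p j hp =>
    have e : eval z (p * X j) - eval z' (p * X j) =
        (eval z p - eval z' p) * z j + eval z' p * (z j - z' j) := by
      rw [map_mul, map_mul, eval_X, eval_X]
      ring
    rw [e]
    exact J.add_mem (J.mul_mem_right _ hp) (J.mul_mem_left _ (h j))

/-- Second order expansion with a polynomial remainder. -/
private theorem expand {R : Type*} [CommRing R] [Algebra k R] (Y : σ → R) (δ : R)
    (f : MvPolynomial σ k) : ∃ P : MvPolynomial σ R, ∀ z : σ → R,
      aeval (fun i => Y i + δ * z i) f =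
        aeval Y f + δ * ∑ i, aeval Y (pderiv i f) * z i + δ ^ 2 * eval z P := by
  classical
  induction f using MvPolynomial.induction_on with
  | C a =>
    refine ⟨0, fun z => ?_⟩
    simp
  | add p q hp hq =>
    obtain ⟨P, hP⟩ := hp
    obtain ⟨Q, hQ⟩ := hq
    refine ⟨P + Q, fun z => ?_⟩
    rw [map_add, hP z, hQ z, map_add, map_add]
    have e : ∑ i, aeval Y (pderiv i (p + q)) * z i =
        ∑ i, aeval Y (pderiv i p) * z i + ∑ i, aeval Y (pderiv i q) * z i := by
      rw [← Finset.sum_add_distrib]
      refine Finset.sum_congr rfl fun i _ => ?_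
      rw [map_add, map_add, add_mul]
    rw [e]
    ring
  | mul_X p j hp =>
    obtain ⟨P, hP⟩ := hp
    refine ⟨P * C (Y j) + P * C δ * X j + (∑ i, C (aeval Y (pderiv i p)) * X i) * X j,
      fun z => ?_⟩
    have h1 : ∑ i, aeval Y (pderiv i (p * X j)) * z i =
        (∑ i, aeval Y (pderiv i p) * z i) * Y j + aeval Y p * z j := by
      have : ∀ i, aeval Y (pderiv i (p * X j)) * z i =
          aeval Y (pderiv i p) * z i * Y j + (if i = j then aeval Y p * z j else 0) := by
        intro i
        rw [pderiv_mul, map_add, map_mul, map_mul, aeval_X, pderiv_X]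
        by_cases hij : i = j
        · subst hij
          rw [Pi.single_eq_same, map_one, if_pos rfl]
          ring
        · rw [Pi.single_eq_of_ne (Ne.symm hij), map_zero, if_neg hij]
          ring
      rw [Finset.sum_congr rfl fun i _ => this i, Finset.sum_add_distrib, Finset.sum_mul,
        Finset.sum_ite_eq' Finset.univ j, if_pos (Finset.mem_univ _)]
    have h2 : eval z (∑ i, C (aeval Y (pderiv i p)) * X i : MvPolynomial σ R) =
        ∑ i, aeval Y (pderiv i p) * z i := by
      rw [map_sum]
      refine Finset.sum_congr rfl fun i _ => ?_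
      rw [map_mul, eval_C, eval_X]
    rw [map_mul, hP z, aeval_X, h1]
    simp only [map_add, map_mul, eval_C, eval_X, aeval_X, h2]
    ring

/-- Solution of `f_j = 0` near a curve `Y` on which the `f_j` vanish; `S` is `Δ` times a right inverse
of the matrix of the gradients along `Y`. -/
theorem hensel {A : Type*} [CommRing A] [Algebra k A] {c : ℕ} (f : Fin c → MvPolynomial σ k)
    (Y : σ → A) (S : σ → Fin c → A) (Δ : A) (hY : ∀ j, aeval Y (f j) = 0)
    (hS : ∀ j l, ∑ i, aeval Y (pderiv i (f j)) * S i l = if j = l then Δ else 0)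
    (w : σ → PowerSeries A) :
    ∃ η : Fin c → PowerSeries A, ∀ j, aeval (fun i => PowerSeries.C (Y i) +
      PowerSeries.C Δ ^ 2 * PowerSeries.X * w i +
      PowerSeries.C Δ * PowerSeries.X * ∑ l, PowerSeries.C (S i l) * η l) (f j) = 0 := by
  classical
  have hex : ∀ j, ∃ P : MvPolynomial σ (PowerSeries A), ∀ z : σ → PowerSeries A,
      aeval (fun i => PowerSeries.C (Y i) + PowerSeries.C Δ * PowerSeries.X * z i) (f j) =
        aeval (fun i => PowerSeries.C (Y i)) (f j) + PowerSeries.C Δ * PowerSeries.X *
          ∑ i, aeval (fun i => PowerSeries.C (Y i)) (pderiv i (f j)) * z i +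
        (PowerSeries.C Δ * PowerSeries.X) ^ 2 * eval z P := fun j =>
    expand (fun i => PowerSeries.C (Y i)) (PowerSeries.C Δ * PowerSeries.X) (f j)
  choose P hP using hex
  let z : (Fin c → PowerSeries A) → σ → PowerSeries A := fun η i =>
    PowerSeries.C Δ * w i + ∑ l, PowerSeries.C (S i l) * η l
  let a : Fin c → PowerSeries A := fun j => ∑ i, PowerSeries.C (aeval Y (pderiv i (f j))) * w i
  obtain ⟨η, hη⟩ := fixed_point (A := A) (c := c)
    (fun η j => -a j - PowerSeries.X * eval (z η) (P j)) (by
      intro u v m huv l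
      have e : (-a l - PowerSeries.X * eval (z u) (P l)) -
          (-a l - PowerSeries.X * eval (z v) (P l)) =
          PowerSeries.X * (-(eval (z u) (P l) - eval (z v) (P l))) := by ring
      change PowerSeries.X ^ (m + 1) ∣ (-a l - PowerSeries.X * eval (z u) (P l)) -
          (-a l - PowerSeries.X * eval (z v) (P l))
      rw [e, pow_succ, mul_comm (PowerSeries.X ^ m)]
      refine mul_dvd_mul_left _ ((dvd_neg).2 ?_)
      rw [← Ideal.mem_span_singleton]
      refine eval_congr _ _ _ (fun i => ?_) _
      rw [Ideal.mem_span_singleton]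
      have e2 : z u i - z v i = ∑ l, PowerSeries.C (S i l) * (u l - v l) := by
        simp only [z, mul_sub, Finset.sum_sub_distrib]
        ring
      rw [e2]
      exact Finset.dvd_sum fun l _ => Dvd.dvd.mul_left (huv l) _)
  refine ⟨η, fun j => ?_⟩
  have hηj : -a j - PowerSeries.X * eval (z η) (P j) = η j := congrFun hη j
  have e1 : (fun i => PowerSeries.C (Y i) + PowerSeries.C Δ ^ 2 * PowerSeries.X * w i +
      PowerSeries.C Δ * PowerSeries.X * ∑ l, PowerSeries.C (S i l) * η l) =
      fun i => PowerSeries.C (Y i) + PowerSeries.C Δ * PowerSeries.X * z η i := by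
    funext i
    simp only [z]
    ring
  rw [e1, hP j (z η), C_aeval, hY j, map_zero, zero_add]
  have e2 : ∑ i, aeval (fun i => PowerSeries.C (Y i)) (pderiv i (f j)) * z η i =
      PowerSeries.C Δ * a j + PowerSeries.C Δ * η j := by
    have e3 : ∀ i, aeval (fun i => PowerSeries.C (Y i)) (pderiv i (f j)) * z η i =
        PowerSeries.C Δ * (PowerSeries.C (aeval Y (pderiv i (f j))) * w i) +
        ∑ l, PowerSeries.C (aeval Y (pderiv i (f j)) * S i l) * η l := by
      intro i
      rw [C_aeval]
      simp only [z, mul_add, Finset.mul_sum, map_mul]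
      congr 1
      · ring
      · exact Finset.sum_congr rfl fun l _ => by ring
    rw [Finset.sum_congr rfl fun i _ => e3 i, Finset.sum_add_distrib, ← Finset.mul_sum,
      Finset.sum_comm]
    congr 1
    have e4 : ∀ l, ∑ i, PowerSeries.C (aeval Y (pderiv i (f j)) * S i l) * η l =
        if j = l then PowerSeries.C Δ * η l else 0 := by
      intro l
      rw [← Finset.sum_mul, ← map_sum, hS j l]
      split_ifs with h
      · rfl
      · rw [map_zero, zero_mul]
    rw [Finset.sum_congr rfl fun l _ => e4 l, Finset.sum_ite_eq Finset.univ j,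
      if_pos (Finset.mem_univ _)]
  rw [e2, ← hηj]
  ring

/-- Uniqueness over a field. -/
theorem hensel_unique {K : Type*} [Field K] [Algebra k K] {c : ℕ} (f : Fin c → MvPolynomial σ k)
    (S : σ → Fin c → K) {Δ : K} (hΔ : Δ ≠ 0) {y : σ → PowerSeries K}
    (hS : ∀ j l, ∑ i, aeval (fun i => PowerSeries.constantCoeff (y i)) (pderiv i (f j)) * S i l =
      if j = l then Δ else 0)
    (hy : ∀ j, aeval y (f j) = 0) {η : Fin c → PowerSeries K}
    (hη : ∀ j, aeval (fun i => y i +
      PowerSeries.C Δ * PowerSeries.X * ∑ l, PowerSeries.C (S i l) * η l) (f j) = 0) : η = 0 := by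
  classical
  have main : ∀ m l, (PowerSeries.X : PowerSeries K) ^ m ∣ η l := by
    intro m
    induction m with
    | zero =>
      intro l
      rw [pow_zero]
      exact one_dvd _
    | succ m ih =>
      choose θ hθ using ih
      intro j
      have hv : ∀ i, PowerSeries.C Δ * PowerSeries.X * ∑ l, PowerSeries.C (S i l) * η l ∈
          Ideal.span {(PowerSeries.X : PowerSeries K) ^ (m + 1)} := by
        intro i
        rw [Ideal.mem_span_singleton]
        have e : PowerSeries.C Δ * PowerSeries.X * ∑ l, PowerSeries.C (S i l) * η l =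
            (PowerSeries.X : PowerSeries K) ^ (m + 1) *
              (PowerSeries.C Δ * ∑ l, PowerSeries.C (S i l) * θ l) := by
          have e' : ∑ l, PowerSeries.C (S i l) * η l =
              PowerSeries.X ^ m * ∑ l, PowerSeries.C (S i l) * θ l := by
            rw [Finset.mul_sum]
            refine Finset.sum_congr rfl fun l _ => ?_
            rw [hθ l]
            ring
          rw [e']
          ring
        rw [e]
        exact dvd_mul_right _ _
      have ht := taylor (k := k) (Ideal.span {(PowerSeries.X : PowerSeries K) ^ (m + 1)}) y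
        (fun i => PowerSeries.C Δ * PowerSeries.X * ∑ l, PowerSeries.C (S i l) * η l) hv (f j)
      rw [hη j, hy j, sub_zero, zero_sub, Ideal.span_singleton_pow, Ideal.mem_span_singleton,
        dvd_neg] at ht
      have e1 : ∑ i, aeval y (pderiv i (f j)) *
          (PowerSeries.C Δ * PowerSeries.X * ∑ l, PowerSeries.C (S i l) * η l) =
          PowerSeries.X ^ (m + 1) * (∑ i, aeval y (pderiv i (f j)) *
            (PowerSeries.C Δ * ∑ l, PowerSeries.C (S i l) * θ l)) := by
        rw [Finset.mul_sum]
        refine Finset.sum_congr rfl fun i _ => ?_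
        have e' : ∑ l, PowerSeries.C (S i l) * η l =
            PowerSeries.X ^ m * ∑ l, PowerSeries.C (S i l) * θ l := by
          rw [Finset.mul_sum]
          refine Finset.sum_congr rfl fun l _ => ?_
          rw [hθ l]
          ring
        rw [e']
        ring
      rw [e1, pow_two] at ht
      have hX : (PowerSeries.X : PowerSeries K) ^ (m + 1) ≠ 0 :=
        pow_ne_zero _ PowerSeries.X_ne_zero
      have ht2 := (mul_dvd_mul_iff_left hX).1 ht
      have ht3 : (PowerSeries.X : PowerSeries K) ∣ ∑ i, aeval y (pderiv i (f j)) *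
            (PowerSeries.C Δ * ∑ l, PowerSeries.C (S i l) * θ l) :=
        (dvd_pow_self _ (Nat.succ_ne_zero m)).trans ht2
      rw [PowerSeries.X_dvd_iff, map_sum] at ht3
      have e2 : ∀ i, PowerSeries.constantCoeff (aeval y (pderiv i (f j)) *
            (PowerSeries.C Δ * ∑ l, PowerSeries.C (S i l) * θ l)) =
          Δ * ∑ l, aeval (fun i => PowerSeries.constantCoeff (y i)) (pderiv i (f j)) * S i l *
            PowerSeries.constantCoeff (θ l) := by
        intro i
        rw [map_mul, cc_aeval, map_mul, PowerSeries.constantCoeff_C, map_sum, Finset.mul_sum,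
          Finset.mul_sum, Finset.mul_sum]
        refine Finset.sum_congr rfl fun l _ => ?_
        rw [map_mul, PowerSeries.constantCoeff_C]
        ring
      rw [Finset.sum_congr rfl fun i _ => e2 i, ← Finset.mul_sum, Finset.sum_comm] at ht3
      have e3 : ∀ l, ∑ i, aeval (fun i => PowerSeries.constantCoeff (y i)) (pderiv i (f j)) *
          S i l * PowerSeries.constantCoeff (θ l) =
          if j = l then Δ * PowerSeries.constantCoeff (θ l) else 0 := by
        intro l
        rw [← Finset.sum_mul, hS j l]
        split_ifs with h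
        · rfl
        · rw [zero_mul]
      rw [Finset.sum_congr rfl fun l _ => e3 l, Finset.sum_ite_eq Finset.univ j,
        if_pos (Finset.mem_univ _)] at ht3
      have h0 : PowerSeries.constantCoeff (θ j) = 0 := by
        rcases mul_eq_zero.1 ht3 with h | h
        · exact absurd h hΔ
        · rcases mul_eq_zero.1 h with h | h
          · exact absurd h hΔ
          · exact h
      rw [hθ j, pow_succ]
      exact mul_dvd_mul_left _ (PowerSeries.X_dvd_iff.2 h0)
  funext l
  ext m
  rw [Pi.zero_apply, map_zero]
  exact (PowerSeries.X_pow_dvd_iff.1 (main (m + 1) l)) m (Nat.lt_succ_self m)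

end Pool.Agent.Helper97.RU
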