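import Pool.Agent.Helper97.RU.Data
import Mathlib.FieldTheory.RatFunc.Luroth

/-!
# The rational surface over a rational curve in the base
-/

set_option autoImplicit false

namespace Pool.Agent.Helper97.RU

open MvPolynomial Pool.Agent.Helper97.GM

universe u

variable {k : Type u} [Field k] {σ : Type} [Fintype σ]

private theorem aeval_mem {L : Type*} [Field L] [Algebra k L] (A : IntermediateField k L) {τ : Type*}
    (z : τ → L) (hz : ∀ j, z j ∈ A) (f : MvPolynomial τ k) : aeval z f ∈ A := by
  have h : (aeval z : MvPolynomial τ k →ₐ[k] L) = A.val.comp (aeval fun j => (⟨z j, hz j⟩ : A)) := by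
    apply MvPolynomial.algHom_ext
    intro j
    simp
  rw [h]
  exact SetLike.coe_mem _

private theorem form_eq {L : Type*} [Field L] [Algebra k L] {y : σ → L} {i : σ} (hi : y i ≠ 0)
    {f : MvPolynomial σ k} {m : ℕ} (hf : f.IsHomogeneous m) :
    aeval y f = y i ^ m * aeval (fun j => y j / y i) f := by
  rw [← aeval_smul_form (y i) (fun j => y j / y i) hf]
  have e : (fun j => y i * (y j / y i)) = y := funext fun j => mul_div_cancel₀ _ hi
  rw [e]

private theorem ratio_mem {L : Type*} [Field L] [Algebra k L] {y : σ → L} {i : σ} (hi : y i ≠ 0)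
    {f g : MvPolynomial σ k} {m : ℕ} (hf : f.IsHomogeneous m) (hg : g.IsHomogeneous m) :
    aeval y f / aeval y g ∈ IntermediateField.adjoin k (Set.range fun j => y j / y i) := by
  rw [form_eq hi hf, form_eq hi hg, mul_div_mul_left _ _ (pow_ne_zero _ hi)]
  have h1 : ∀ j, y j / y i ∈ IntermediateField.adjoin k (Set.range fun j => y j / y i) :=
    fun j => IntermediateField.subset_adjoin _ _ ⟨j, rfl⟩
  exact div_mem (aeval_mem _ _ h1 f) (aeval_mem _ _ h1 g)

section embed

variable (k)

private noncomputable def uu (j : Fin 2) : FractionRing (MvPolynomial (Fin 2) k) :=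
  algebraMap (MvPolynomial (Fin 2) k) _ (X j)

private theorem transc0 : Transcendental k (uu k 0) :=
  (transcendental_algebraMap_iff (IsFractionRing.injective (MvPolynomial (Fin 2) k)
    (FractionRing (MvPolynomial (Fin 2) k)))).2 (MvPolynomial.transcendental_X k 0)

/-- `k(t) → k(u₀, u₁)` -/
private noncomputable def i0 : RatFunc k →ₐ[k] FractionRing (MvPolynomial (Fin 2) k) :=
  (IntermediateField.val _).comp (RatFunc.algEquivOfTranscendental (uu k 0) (transc0 k)).toAlgHom

private theorem i0_alg (p : Polynomial k) :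
    i0 k (algebraMap (Polynomial k) (RatFunc k) p) = Polynomial.aeval (uu k 0) p := by
  show ((RatFunc.algEquivOfTranscendental (uu k 0) (transc0 k) (algebraMap _ _ p) : _) :
    FractionRing (MvPolynomial (Fin 2) k)) = _
  rw [RatFunc.algEquivOfTranscendental_apply]
  simp

/-- `k(t)[x] → k(u₀, u₁)` -/
private noncomputable def i1 :
    Polynomial (RatFunc k) →+* FractionRing (MvPolynomial (Fin 2) k) :=
  Polynomial.eval₂RingHom (i0 k).toRingHom (uu k 1)

private theorem i1_inj : Function.Injective (i1 k) := by
  rw [injective_iff_map_eq_zero]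
  intro p hp
  have h1 := IsLocalization.integerNormalization_eval₂_eq_zero (nonZeroDivisors (Polynomial k))
    (i0 k).toRingHom p (x := uu k 1) hp
  rw [← IsLocalization.integerNormalization_eq_zero_iff (M := nonZeroDivisors (Polynomial k)) le_rfl]
  set q := IsLocalization.integerNormalization (nonZeroDivisors (Polynomial k)) p
  -- the left inverse
  let ρ : Polynomial (Polynomial k) →+* MvPolynomial (Fin 2) k :=
    Polynomial.eval₂RingHom (Polynomial.aeval (X 0)).toRingHom (X 1)
  let ρ' : MvPolynomial (Fin 2) k →+* Polynomial (Polynomial k) :=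
    (aeval (![Polynomial.C Polynomial.X, Polynomial.X] : Fin 2 → Polynomial (Polynomial k)) :
      MvPolynomial (Fin 2) k →ₐ[k] Polynomial (Polynomial k)).toRingHom
  have h2 : ρ'.comp ρ = RingHom.id _ := by
    apply Polynomial.ringHom_ext'
    · apply Polynomial.ringHom_ext'
      · ext a
        simp [ρ, ρ']
      · simp [ρ, ρ']
    · simp [ρ, ρ']
  have h3 : (algebraMap (MvPolynomial (Fin 2) k) (FractionRing (MvPolynomial (Fin 2) k))).comp ρ =
      Polynomial.eval₂RingHom ((i0 k).toRingHom.comp (algebraMap (Polynomial k) (RatFunc k))) (uu k 1) := by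
    apply Polynomial.ringHom_ext'
    · apply Polynomial.ringHom_ext'
      · ext a
        have h4 := i0_alg k (Polynomial.C a)
        simp only [Polynomial.aeval_C] at h4
        simp only [ρ, RingHom.comp_apply, Polynomial.coe_eval₂RingHom, Polynomial.eval₂_C]
        refine Eq.trans ?_ h4.symm
        simp [IsScalarTower.algebraMap_apply k (MvPolynomial (Fin 2) k)
          (FractionRing (MvPolynomial (Fin 2) k))]
      · have h4 := i0_alg k Polynomial.X
        simp only [Polynomial.aeval_X] at h4
        simp only [ρ, RingHom.comp_apply, Polynomial.coe_eval₂RingHom, Polynomial.eval₂_C]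
        refine Eq.trans ?_ h4.symm
        simp [uu]
    · simp [ρ, uu]
  have h5 : ρ q = 0 := by
    apply IsFractionRing.injective (MvPolynomial (Fin 2) k) (FractionRing (MvPolynomial (Fin 2) k))
    rw [map_zero, ← RingHom.comp_apply, h3]
    exact h1
  have h6 : ρ' (ρ q) = q := by
    rw [← RingHom.comp_apply, h2]
    rfl
  rw [← h6, h5, map_zero]

private theorem i1_aeval {τ : Type*} (y : τ → Polynomial (RatFunc k)) (f : MvPolynomial τ k) :
    i1 k (aeval y f) = aeval (fun j => i1 k (y j)) f := by
  have h : (i1 k).comp (aeval y : MvPolynomial τ k →ₐ[k] _).toRingHom =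
      (aeval (fun j => i1 k (y j)) : MvPolynomial τ k →ₐ[k] _).toRingHom := by
    apply MvPolynomial.ringHom_ext
    · intro a
      have h1 : (i0 k) (algebraMap k (RatFunc k) a) = algebraMap k _ a := (i0 k).commutes a
      simp only [RingHom.comp_apply, AlgHom.toRingHom_eq_coe, RingHom.coe_coe, MvPolynomial.aeval_C]
      rw [IsScalarTower.algebraMap_apply k (RatFunc k) (Polynomial (RatFunc k)), Polynomial.algebraMap_apply]
      simp only [i1, Polynomial.coe_eval₂RingHom, Polynomial.eval₂_C]
      exact h1
    · intro j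
      simp
  exact DFunLike.congr_fun h f

end embed

theorem lift {I : Ideal (MvPolynomial σ k)} {M d d' δ : ℕ} {φ : σ × Fin M → MvPolynomial σ k}
    {τ₁ τ₂ : MvPolynomial σ k} {D : MvPolynomial (σ × Fin M) k} (hφ : ∀ l, (φ l).IsHomogeneous d)
    (hτ₁ : τ₁.IsHomogeneous d') (hτ₂ : τ₂.IsHomogeneous d') (hD : D.IsHomogeneous δ)
    (hK : ∀ (K : Type u) [Field K] [Algebra k K] (b : σ × Fin M → K), InB I φ b → aeval b D ≠ 0 →
      RulingAt I φ τ₁ τ₂ b)
    {b : σ × Fin M → Polynomial k} (hb : InB I φ b) (hbD : aeval b D ≠ 0) (hbc : ¬ Const b) :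
    HasSurface I := by
  classical
  -- step 1
  obtain ⟨l0, hl0⟩ : ∃ l, b l ≠ 0 := by
    by_contra hcon
    push Not at hcon
    exact hbc ⟨0, fun _ => 0, fun l => by rw [hcon l]; simp⟩
  set β : σ × Fin M → RatFunc k := fun l => algebraMap (Polynomial k) (RatFunc k) (b l) with hβ
  have hβ0 : β l0 ≠ 0 := by
    intro h
    exact hl0 ((IsFractionRing.injective (Polynomial k) (RatFunc k)) (by rw [map_zero]; exact h))
  have hβa : ∀ f : MvPolynomial (σ × Fin M) k, aeval β f =
      algebraMap (Polynomial k) (RatFunc k) (aeval b f) := by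
    intro f
    rw [hβ]
    exact (MvPolynomial.aeval_algebraMap_apply (RatFunc k) b f)
  set E : IntermediateField k (RatFunc k) :=
    IntermediateField.adjoin k (Set.range fun l => β l / β l0) with hE
  have hmem : ∀ l, β l / β l0 ∈ E := fun l => IntermediateField.subset_adjoin _ _ ⟨l, rfl⟩
  have hE0 : E ≠ ⊥ := by
    intro h
    apply hbc
    have h1 : ∀ l, ∃ c : k, algebraMap k (RatFunc k) c = β l / β l0 := by
      intro l
      have h2 := hmem l
      rw [h, IntermediateField.mem_bot] at h2
      exact h2
    choose c hc using h1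
    refine ⟨b l0, c, fun l => ?_⟩
    apply IsFractionRing.injective (Polynomial k) (RatFunc k)
    have h3 := hc l
    rw [eq_div_iff hβ0] at h3
    rw [map_mul, mul_comm]
    refine Eq.trans h3.symm ?_
    congr 1
  -- Lueroth
  let e := RatFunc.Luroth.algEquiv hE0
  set b' : σ × Fin M → RatFunc k := fun l => e.symm ⟨β l / β l0, hmem l⟩ with hb'
  have hb'a : ∀ f : MvPolynomial (σ × Fin M) k, ((e (aeval b' f) : E) : RatFunc k) =
      aeval (fun l => β l / β l0) f := by
    intro f
    have h1 : (E.val.comp e.toAlgHom).comp (aeval b') = aeval (fun l => β l / β l0) := by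
      apply MvPolynomial.algHom_ext
      intro l
      simp [hb']
    exact DFunLike.congr_fun h1 f
  have hform : ∀ (f : MvPolynomial (σ × Fin M) k) (m : ℕ), f.IsHomogeneous m →
      (aeval b' f = 0 ↔ aeval b f = 0) := by
    intro f m hf
    have h1 := form_eq hβ0 hf
    rw [hβa] at h1
    constructor
    · intro h2
      have h3 := hb'a f
      rw [h2, map_zero] at h3
      rw [← h3] at h1
      apply IsFractionRing.injective (Polynomial k) (RatFunc k)
      rw [h1, map_zero]
      simp
    · intro h2
      rw [h2, map_zero] at h1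
      have h3 := (mul_eq_zero.1 h1.symm).resolve_left (pow_ne_zero _ hβ0)
      have h4 := hb'a f
      rw [h3] at h4
      have h5 : e (aeval b' f) = 0 := Subtype.ext h4
      exact (map_eq_zero_iff e e.injective).1 h5
  have hin : InB I φ b' := by
    intro g m hg hgI
    exact (hform g m hg).2 (hb g m hg hgI)
  have hD' : aeval b' D ≠ 0 := fun h => hbD ((hform D δ hD).1 h)
  have hgen : IntermediateField.adjoin k (Set.range b') = ⊤ := by
    rw [eq_top_iff]
    intro r _
    have h1 : E ≤ (IntermediateField.adjoin k (Set.range b')).map (E.val.comp e.toAlgHom) := by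
      refine IntermediateField.adjoin_le_iff.2 ?_
      rintro _ ⟨l, rfl⟩
      refine ⟨b' l, IntermediateField.subset_adjoin _ _ ⟨l, rfl⟩, ?_⟩
      simp [hb']
    obtain ⟨r', hr', hr''⟩ := h1 (SetLike.coe_mem (e r))
    have h2 : e r' = e r := Subtype.ext hr''
    rw [← e.injective h2]
    exact hr'
  have hb1 : b' l0 = 1 := by
    rw [hb']
    simp only
    have h1 : (⟨β l0 / β l0, hmem l0⟩ : E) = 1 := Subtype.ext (div_self hβ0)
    rw [h1, map_one]
  obtain ⟨r1, r2, r3, r4, l1, r5⟩ := hK (RatFunc k) b' hin hD'
  -- the surface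
  refine ⟨fun j => i1 k (Psi b' j), ?_, ?_⟩
  · intro f hf
    rw [← i1_aeval, r1 f hf, map_zero]
  · have hi : ∃ i, Psi b' i ≠ 0 := by
      by_contra hcon
      push Not at hcon
      have h0 : Psi b' = 0 := funext hcon
      rw [h0] at r2 r3
      have h1 : ∀ f : MvPolynomial σ k, (aeval (0 : σ → Polynomial (RatFunc k)) f) =
          Polynomial.C (algebraMap k (RatFunc k) (constantCoeff f)) := by
        intro f
        rw [MvPolynomial.aeval_zero]
        rfl
      rw [h1, h1] at r2
      rw [h1] at r3
      have h2 := congrArg (fun p => Polynomial.coeff p 1) r2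
      simp only [Polynomial.coeff_C_succ, Polynomial.coeff_X_mul, Polynomial.coeff_C_zero] at h2
      apply r3
      rw [← h2, Polynomial.C_0]
    obtain ⟨i, hi⟩ := hi
    have hyi : i1 k (Psi b' i) ≠ 0 := fun h => hi ((i1_inj k) (by rw [h, map_zero]))
    refine ⟨i, hyi, ?_⟩
    set y : σ → FractionRing (MvPolynomial (Fin 2) k) := fun j => i1 k (Psi b' j) with hy
    set A := IntermediateField.adjoin k (Set.range fun j => y j / y i) with hA
    have hye : ∀ f : MvPolynomial σ k, i1 k (aeval (Psi b') f) = aeval y f := fun f => i1_aeval k _ f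
    -- `u₁`
    have hu1 : uu k 1 ∈ A := by
      have h1 := congrArg (i1 k) r2
      rw [map_mul, hye, hye] at h1
      have h2 : aeval y τ₂ ≠ 0 := by
        rw [← hye]
        exact fun h => r3 ((i1_inj k) (by rw [h, map_zero]))
      have h3 : i1 k Polynomial.X = uu k 1 := by simp [i1]
      rw [h3] at h1
      rw [← div_eq_iff h2] at h1
      rw [← h1]
      exact ratio_mem hyi hτ₁ hτ₂
    -- the field `k(t)`
    have hC : ∀ r : RatFunc k, i1 k (Polynomial.C r) = i0 k r := by
      intro r
      simp [i1]
    have hrel : ∀ l l', aeval y (φ l) * i0 k (b' l') = aeval y (φ l') * i0 k (b' l) := by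
      intro l l'
      have h1 := congrArg (i1 k) (r4 l l')
      rw [map_mul, map_mul, hye, hye, hC, hC] at h1
      exact h1
    have hl1 : aeval y (φ l1) ≠ 0 := by
      rw [← hye]
      exact fun h => r5 ((i1_inj k) (by rw [h, map_zero]))
    have hl2 : aeval y (φ l0) ≠ 0 := by
      intro h
      have h1 := hrel l1 l0
      rw [h, zero_mul, hb1, map_one, mul_one] at h1
      exact hl1 h1
    have hbA : ∀ l, i0 k (b' l) ∈ A := by
      intro l
      have h1 := hrel l0 l
      rw [hb1, map_one, mul_one] at h1
      have h2 : i0 k (b' l) = aeval y (φ l) / aeval y (φ l0) := by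
        rw [eq_div_iff hl2, mul_comm]
        exact h1
      rw [h2]
      exact ratio_mem hyi (hφ l) (hφ l0)
    have hall : ∀ r : RatFunc k, i0 k r ∈ A := by
      intro r
      have h1 : IntermediateField.adjoin k (Set.range b') ≤ A.comap (i0 k) := by
        rw [IntermediateField.adjoin_le_iff]
        rintro _ ⟨l, rfl⟩
        exact hbA l
      rw [hgen] at h1
      exact h1 (IntermediateField.mem_top)
    have hu0 : uu k 0 ∈ A := by
      have h1 := hall (algebraMap (Polynomial k) (RatFunc k) Polynomial.X)
      rw [i0_alg, Polynomial.aeval_X] at h1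
      exact h1
    rw [eq_top_iff]
    intro w _
    obtain ⟨p, q, _, rfl⟩ := IsFractionRing.div_surjective (A := MvPolynomial (Fin 2) k) w
    have hp : ∀ p : MvPolynomial (Fin 2) k, algebraMap (MvPolynomial (Fin 2) k)
        (FractionRing (MvPolynomial (Fin 2) k)) p ∈ A := by
      intro p
      have h1 : algebraMap (MvPolynomial (Fin 2) k) (FractionRing (MvPolynomial (Fin 2) k)) p =
          aeval (uu k) p := by
        have h2 := MvPolynomial.aeval_algebraMap_apply (FractionRing (MvPolynomial (Fin 2) k))
          (X : Fin 2 → MvPolynomial (Fin 2) k) p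
        rw [MvPolynomial.aeval_X_left_apply] at h2
        exact h2.symm
      rw [h1]
      apply aeval_mem
      intro j
      fin_cases j
      · exact hu0
      · exact hu1
    exact div_mem (hp p) (hp q)

end Pool.Agent.Helper97.RU
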