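import Pool.Agent.Helper97.RU.Defs

/-!
# Limits of a family of arcs: rational curves between them
-/

set_option autoImplicit false

namespace Pool.Agent.Helper97.RU

open MvPolynomial Pool.Agent.Helper97.GM

variable {k : Type*} [Field k] {ι : Type*}

/-- The coefficients of `λ ^ i X ^ j`. -/
noncomputable def co (Φ : ι → PowerSeries (Polynomial k)) (i j : ℕ) : ι → k :=
  fun l => (PowerSeries.coeff j (Φ l)).coeff i



theorem val_bound (S : ℕ → ℕ → Prop) (j₀ : ℕ) :
    ∃ D : ℕ, ∀ i j, j ≤ j₀ → S i j → (∀ i'' < i, ¬ S i'' j) → i ≤ D := by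
  classical
  have h : ∀ j, ∃ d, ∀ i, S i j → (∀ i'' < i, ¬ S i'' j) → i ≤ d := by
    intro j
    by_cases hex : ∃ i, S i j
    · exact ⟨Nat.find hex, fun i hi hmin => by
        by_contra hlt
        exact hmin _ (not_le.mp hlt) (Nat.find_spec hex)⟩
    · exact ⟨0, fun i hi _ => absurd ⟨i, hi⟩ hex⟩
  choose ρ hρ using h
  refine ⟨∑ j ∈ Finset.range (j₀ + 1), ρ j, fun i j hj hi hmin => (hρ j i hi hmin).trans ?_⟩
  exact Finset.single_le_sum (f := ρ) (fun _ _ => Nat.zero_le _) (Finset.mem_range.mpr (by omega))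

/-- The data common to the two combinatorial lemmas. -/
theorem val_common (S : ℕ → ℕ → Prop) {j₀ N i₁ : ℕ} (h0 : ∀ j < j₀, ¬ S 0 j) (h0' : S 0 j₀)
    (hN : ∀ j < N, ∀ i, ¬ S i j) (h1 : ∀ i < i₁, ¬ S i N) (h1' : S i₁ N) :
    ∃ q : ℕ, 1 ≤ q ∧ ∃ n : ℕ → ℕ, (∀ m, ∃ i j, S i j ∧ m * i + q * j = n m) ∧
      (∀ m i j, S i j → n m ≤ m * i + q * j) ∧
      (∀ m, 1 ≤ m → ∀ i j i' j', S i j → m * i + q * j = n m → i < i' → S i' j' →
        (∃ m', 1 ≤ m' ∧ m' * i' + q * j' = n m') → (i' - i) ∣ q) ∧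
      (∀ i j, S i j → 1 * i + q * j = n 1 → i = i₁ ∧ j = N) ∧ (1 * i₁ + q * N = n 1) ∧
      ∃ M, 1 ≤ M ∧ ∀ i j, S i j → M * i + q * j = n M → i = 0 ∧ j = j₀ := by
  classical
  obtain ⟨D, hD⟩ := val_bound S j₀
  have hNj : N ≤ j₀ := by
    by_contra hlt
    exact hN j₀ (not_le.mp hlt) 0 h0'
  have hi₁ : i₁ ≤ D := hD i₁ N hNj h1' h1
  set q := (D + 1).factorial with hq
  have hDq : D < q := lt_of_lt_of_le (Nat.lt_succ_self D) (Nat.self_le_factorial (D + 1))
  have hex : ∀ m, ∃ n, ∃ i j, S i j ∧ m * i + q * j = n := fun m => ⟨_, 0, j₀, h0', rfl⟩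
  have hmin : ∀ m i j, S i j → Nat.find (hex m) ≤ m * i + q * j := fun m i j h =>
    Nat.find_min' (hex m) ⟨i, j, h, rfl⟩
  have hface : ∀ m, 1 ≤ m → ∀ i j, S i j → m * i + q * j = Nat.find (hex m) → i ≤ D := by
    intro m hm i j hS hw
    have h2 := hmin m 0 j₀ h0'
    have hj : j ≤ j₀ := by
      have : q * j ≤ q * j₀ := by omega
      exact Nat.le_of_mul_le_mul_left this (by omega)
    refine hD i j hj hS fun i'' hi'' hS'' => ?_
    have h3 := hmin m i'' j hS''
    have h4 : m * i'' < m * i := Nat.mul_lt_mul_of_pos_left hi'' (by omega)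
    omega
  refine ⟨q, by omega, fun m => Nat.find (hex m), fun m => Nat.find_spec (hex m), hmin, ?_, ?_, ?_,
    ?_⟩
  · intro m hm i j i' j' hS hw hlt hS' hm'
    obtain ⟨m', hm'1, hw'⟩ := hm'
    have h3 : i' ≤ D := hface m' hm'1 i' j' hS' hw'
    exact Nat.dvd_factorial (by omega) (by omega)
  · intro i j hS hw
    replace hw : 1 * i + q * j = Nat.find (hex 1) := hw
    have h2 := hmin 1 i₁ N h1'
    have h3 : N ≤ j := by
      by_contra hlt
      exact hN j (not_le.mp hlt) i hS
    rcases Nat.eq_or_lt_of_le h3 with h4 | h4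
    · subst h4
      refine ⟨?_, rfl⟩
      have h5 : i₁ ≤ i := by
        by_contra hlt
        exact h1 i (not_le.mp hlt) hS
      omega
    · exfalso
      have h5 : q * (N + 1) ≤ q * j := Nat.mul_le_mul_left q h4
      rw [Nat.mul_add] at h5
      omega
  · refine le_antisymm ?_ (hmin 1 i₁ N h1')
    show 1 * i₁ + q * N ≤ Nat.find (hex 1)
    obtain ⟨i, j, hS, hw⟩ := Nat.find_spec (hex 1)
    rw [← hw]
    have h3 : N ≤ j := by
      by_contra hlt
      exact hN j (not_le.mp hlt) i hS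
    rcases Nat.eq_or_lt_of_le h3 with h4 | h4
    · subst h4
      have h5 : i₁ ≤ i := by
        by_contra hlt
        exact h1 i (not_le.mp hlt) hS
      omega
    · have h5 : q * (N + 1) ≤ q * j := Nat.mul_le_mul_left q h4
      rw [Nat.mul_add] at h5
      omega
  · refine ⟨q * j₀ + 1, by omega, fun i j hS hw => ?_⟩
    replace hw : (q * j₀ + 1) * i + q * j = Nat.find (hex (q * j₀ + 1)) := hw
    have h2 := hmin (q * j₀ + 1) 0 j₀ h0'
    have hi : i = 0 := by
      by_contra hi
      have : (q * j₀ + 1) * 1 ≤ (q * j₀ + 1) * i := Nat.mul_le_mul_left _ (by omega)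
      omega
    subst hi
    have hj : j ≤ j₀ := by
      have : q * j ≤ q * j₀ := by omega
      exact Nat.le_of_mul_le_mul_left this (by omega)
    refine ⟨rfl, ?_⟩
    by_contra hne
    exact h0 j (by omega) hS

theorem val_comb₁ (S : ℕ → ℕ → Prop) {j₀ N i₁ : ℕ} (h0 : ∀ j < j₀, ¬ S 0 j) (h0' : S 0 j₀)
    (hN : ∀ j < N, ∀ i, ¬ S i j) (h1 : ∀ i < i₁, ¬ S i N) (h1' : S i₁ N)
    (G : ℕ → ℕ → Prop) (hG : G 0 j₀) (hG' : ¬ G i₁ N) :
    ∃ m q n i' j' : ℕ, 1 ≤ m ∧ 1 ≤ q ∧ (∀ i j, S i j → n ≤ m * i + q * j) ∧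
      S i' j' ∧ m * i' + q * j' = n ∧ G i' j' ∧
      (∀ i j, S i j → m * i + q * j = n → i' ≤ i) ∧
      ∃ i j, S i j ∧ m * i + q * j = n ∧ ¬ G i j := by
  classical
  obtain ⟨q, hq, n, hn, hmin, hdvd, huniq, hone, M, hM, hMface⟩ := val_common S h0 h0' hN h1 h1'
  have hex : ∃ m, 1 ≤ m ∧ ∀ i j, S i j → m * i + q * j = n m → G i j :=
    ⟨M, hM, fun i j hS hw => by obtain ⟨rfl, rfl⟩ := hMface i j hS hw; exact hG⟩
  obtain ⟨hm1, hmP⟩ := Nat.find_spec hex
  set m₀ := Nat.find hex with hm₀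
  have hm2 : m₀ ≠ 1 := by
    intro h
    rw [h] at hmP
    exact hG' (hmP i₁ N h1' hone)
  obtain ⟨m, hm⟩ : ∃ m, m₀ = m + 1 := ⟨m₀ - 1, by omega⟩
  have hm3 : 1 ≤ m := by omega
  have hnP : ¬ ∀ i j, S i j → m * i + q * j = n m → G i j := fun h =>
    Nat.find_min hex (m := m) (by omega) ⟨hm3, h⟩
  push Not at hnP
  obtain ⟨ib, jb, hbS, hbw, hbG⟩ := hnP
  rw [hm] at hmP
  -- the point with least `i`
  have hex2 : ∃ i', ∃ j', S i' j' ∧ m * i' + q * j' = n m := by
    obtain ⟨i, j, hS, hw⟩ := hn m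
    exact ⟨i, j, hS, hw⟩
  obtain ⟨j', hS', hw'⟩ := Nat.find_spec hex2
  set i' := Nat.find hex2 with hi'
  have hleast : ∀ i j, S i j → m * i + q * j = n m → i' ≤ i := fun i j hS hw =>
    Nat.find_min' hex2 ⟨j, hS, hw⟩
  refine ⟨m, q, n m, i', j', hm3, hq, hmin m, hS', hw', ?_, hleast, ib, jb, hbS, hbw, hbG⟩
  by_contra hbad
  have hnot : (m + 1) * i' + q * j' ≠ n (m + 1) := fun h => hbad (hmP i' j' hS' h)
  obtain ⟨i, j, hS, hw⟩ := hn (m + 1)
  have h2 := hmin (m + 1) i' j' hS'
  have h3 := hmin m i j hS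
  have h4 : (m + 1) * i' = m * i' + i' := by ring
  have h5 : (m + 1) * i = m * i + i := by ring
  have hlt : i < i' := by omega
  have hne : m * i + q * j ≠ n m := fun h => absurd (hleast i j hS h) (by omega)
  have hd : (i' - i) ∣ q := hdvd (m + 1) (by omega) i j i' j' hS hw hlt hS' ⟨m, hm3, hw'⟩
  -- the difference of the weights
  have hpos : 0 < m * i + q * j - n m := by omega
  have hsmall : m * i + q * j - n m < i' - i := by omega
  have hdv : (i' - i) ∣ m * i + q * j - n m := by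
    obtain ⟨c, hc⟩ := hd
    obtain ⟨r, hr⟩ : ∃ r, i' = i + r := ⟨i' - i, by omega⟩
    have hr' : i' - i = r := by omega
    rw [hr'] at hc ⊢
    have h6 : m * i' = m * i + m * r := by rw [hr]; ring
    have h7 : ∃ z : ℤ, ((m * i + q * j - n m : ℕ) : ℤ) = (r : ℤ) * z := by
      refine ⟨c * (j - j' : ℤ) - m, ?_⟩
      rw [Nat.cast_sub (by omega), ← hw']
      push_cast
      rw [hr, hc]
      push_cast
      ring
    obtain ⟨z, hz⟩ := h7
    exact Int.natCast_dvd_natCast.mp ⟨z, hz⟩
  exact absurd (Nat.le_of_dvd hpos hdv) (by omega)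

theorem val_comb₂ (S : ℕ → ℕ → Prop) {j₀ N i₁ : ℕ} (h0 : ∀ j < j₀, ¬ S 0 j) (h0' : S 0 j₀)
    (hN : ∀ j < N, ∀ i, ¬ S i j) (h1 : ∀ i < i₁, ¬ S i N) (h1' : S i₁ N)
    (G : ℕ → ℕ → Prop) (hG : G i₁ N) (hG' : ¬ G 0 j₀) :
    ∃ m q n i' j' : ℕ, 1 ≤ m ∧ 1 ≤ q ∧ (∀ i j, S i j → n ≤ m * i + q * j) ∧
      S i' j' ∧ m * i' + q * j' = n ∧ G i' j' ∧
      (∀ i j, S i j → m * i + q * j = n → i ≤ i') ∧
      ∃ i j, S i j ∧ m * i + q * j = n ∧ ¬ G i j := by
  classical
  obtain ⟨q, hq, n, hn, hmin, hdvd, huniq, hone, M, hM, hMface⟩ := val_common S h0 h0' hN h1 h1'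
  have hex : ∃ m, 1 ≤ m ∧ ¬ ∀ i j, S i j → m * i + q * j = n m → G i j := by
    refine ⟨M, hM, fun h => hG' ?_⟩
    obtain ⟨i, j, hS, hw⟩ := hn M
    obtain ⟨rfl, rfl⟩ := hMface i j hS hw
    exact h _ _ hS hw
  obtain ⟨hm1, hmP⟩ := Nat.find_spec hex
  set m₀ := Nat.find hex with hm₀
  have hm2 : m₀ ≠ 1 := by
    intro h
    apply hmP
    rw [h]
    intro i j hS hw
    obtain ⟨rfl, rfl⟩ := huniq i j hS hw
    exact hG
  obtain ⟨m, hm⟩ : ∃ m, m₀ = m + 1 := ⟨m₀ - 1, by omega⟩
  have hm3 : 1 ≤ m := by omega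
  have hPm : ∀ i j, S i j → m * i + q * j = n m → G i j := by
    by_contra h
    exact Nat.find_min hex (m := m) (by omega) ⟨hm3, h⟩
  rw [hm] at hmP
  push Not at hmP
  obtain ⟨ib, jb, hbS, hbw, hbG⟩ := hmP
  -- the point with largest `i`
  have hbd : ∀ i j, S i j → (m + 1) * i + q * j = n (m + 1) → i ≤ n (m + 1) := by
    intro i j _ hw
    have : 1 * i ≤ (m + 1) * i := Nat.mul_le_mul_right i (by omega)
    omega
  have hex2 : ∃ r, ∃ i' j', i' + r = n (m + 1) ∧ S i' j' ∧ (m + 1) * i' + q * j' = n (m + 1) := by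
    obtain ⟨i, j, hS, hw⟩ := hn (m + 1)
    exact ⟨n (m + 1) - i, i, j, by have := hbd i j hS hw; omega, hS, hw⟩
  obtain ⟨i', j', hr, hS', hw'⟩ := Nat.find_spec hex2
  have hlargest : ∀ i j, S i j → (m + 1) * i + q * j = n (m + 1) → i ≤ i' := by
    intro i j hS hw
    have h2 := hbd i j hS hw
    have h3 := Nat.find_min' hex2 (m := n (m + 1) - i) ⟨i, j, by omega, hS, hw⟩
    omega
  refine ⟨m + 1, q, n (m + 1), i', j', by omega, hq, hmin (m + 1), hS', hw', ?_, hlargest, ib, jb,
    hbS, hbw, hbG⟩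
  by_contra hbad
  have hnot : m * i' + q * j' ≠ n m := fun h => hbad (hPm i' j' hS' h)
  obtain ⟨i, j, hS, hw⟩ := hn m
  have h2 := hmin m i' j' hS'
  have h3 := hmin (m + 1) i j hS
  have h4 : (m + 1) * i' = m * i' + i' := by ring
  have h5 : (m + 1) * i = m * i + i := by ring
  have hlt : i' < i := by omega
  have hne : (m + 1) * i + q * j ≠ n (m + 1) := fun h => absurd (hlargest i j hS h) (by omega)
  have hd : (i - i') ∣ q := hdvd (m + 1) (by omega) i' j' i j hS' hw' hlt hS ⟨m, hm3, hw⟩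
  have hpos : 0 < (m + 1) * i + q * j - n (m + 1) := by omega
  have hsmall : (m + 1) * i + q * j - n (m + 1) < i - i' := by omega
  have hdv : (i - i') ∣ (m + 1) * i + q * j - n (m + 1) := by
    obtain ⟨c, hc⟩ := hd
    obtain ⟨r, hr⟩ : ∃ r, i = i' + r := ⟨i - i', by omega⟩
    have hr' : i - i' = r := by omega
    rw [hr'] at hc ⊢
    have h7 : ∃ z : ℤ, (((m + 1) * i + q * j - n (m + 1) : ℕ) : ℤ) = (r : ℤ) * z := by
      refine ⟨c * (j - j' : ℤ) + (m + 1), ?_⟩
      rw [Nat.cast_sub (by omega), ← hw']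
      push_cast
      rw [hr, hc]
      push_cast
      ring
    obtain ⟨z, hz⟩ := h7
    exact Int.natCast_dvd_natCast.mp ⟨z, hz⟩
  exact absurd (Nat.le_of_dvd hpos hdv) (by omega)


section Alg

open Polynomial in
/-- `λ ↦ μ s ^ m`, `X ↦ s ^ q`. -/
noncomputable def psi (k : Type*) [Field k] (m q : ℕ) : k[X][X] →ₐ[k] k[X][X] :=
  Polynomial.eval₂AlgHom (Polynomial.aeval (Polynomial.C (Polynomial.X : k[X]) * Polynomial.X ^ m))
    (Polynomial.X ^ q) fun _ => Commute.all _ _

theorem psi_monomial (m q j i : ℕ) (a : k) :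
    psi k m q (Polynomial.monomial j (Polynomial.monomial i a)) =
      Polynomial.monomial (m * i + q * j) (Polynomial.monomial i a) := by
  unfold psi
  rw [Polynomial.eval₂AlgHom_apply, Polynomial.eval₂_monomial]
  simp only [RingHom.coe_coe, Polynomial.aeval_monomial]
  rw [← Polynomial.C_mul_X_pow_eq_monomial (n := m * i + q * j),
    ← Polynomial.C_mul_X_pow_eq_monomial (n := i)]
  have : algebraMap k (Polynomial (Polynomial k)) a = Polynomial.C (Polynomial.C a) := rfl
  rw [this, mul_pow, map_mul, map_pow, ← pow_mul, ← pow_mul, pow_add]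
  ring

theorem psi_coeff {m q : ℕ} (hq : 1 ≤ q) (F : Polynomial (Polynomial k)) (n i : ℕ) :
    ((psi k m q F).coeff n).coeff i =
      if m * i ≤ n ∧ q ∣ n - m * i then (F.coeff ((n - m * i) / q)).coeff i else 0 := by
  induction F using Polynomial.induction_on' with
  | add F G hF hG =>
    rw [map_add, Polynomial.coeff_add, Polynomial.coeff_add, hF, hG, Polynomial.coeff_add,
      Polynomial.coeff_add]
    split_ifs <;> simp
  | monomial j p =>
    induction p using Polynomial.induction_on' with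
    | add F G hF hG =>
      rw [map_add, map_add, Polynomial.coeff_add, Polynomial.coeff_add, hF, hG,
        Polynomial.coeff_add, Polynomial.coeff_add]
      split_ifs <;> simp
    | monomial i₀ a =>
      rw [psi_monomial, Polynomial.coeff_monomial, Polynomial.coeff_monomial]
      by_cases h : m * i₀ + q * j = n
      · rw [if_pos h, Polynomial.coeff_monomial]
        by_cases hi : i₀ = i
        · subst hi
          have h1 : n - m * i₀ = q * j := by omega
          rw [if_pos rfl, if_pos ⟨by omega, by rw [h1]; exact dvd_mul_right q j⟩, h1,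
            Nat.mul_div_cancel_left j (by omega), if_pos rfl, Polynomial.coeff_monomial,
            if_pos rfl]
        · rw [if_neg hi]
          split_ifs with h2 h3
          · rw [Polynomial.coeff_monomial, if_neg hi]
          · rw [Polynomial.coeff_zero]
          · rfl
      · rw [if_neg h, Polynomial.coeff_zero]
        split_ifs with h2 h3
        · rw [Polynomial.coeff_monomial, if_neg]
          rintro rfl
          apply h
          rw [h3, Nat.mul_div_cancel' h2.2]
          omega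
        · rw [Polynomial.coeff_zero]
        · rfl

/-- The face polynomial of the weight `m i + q j = n`. -/
noncomputable def faceP (Φ : ι → PowerSeries (Polynomial k)) (m q n : ℕ) (l : ι) : Polynomial k :=
  ∑ i ∈ Finset.range (n + 1),
    if m * i ≤ n ∧ q ∣ n - m * i then Polynomial.monomial i (co Φ i ((n - m * i) / q) l) else 0

theorem faceP_coeff (Φ : ι → PowerSeries (Polynomial k)) {m q : ℕ} (hm : 1 ≤ m) (n : ℕ) (l : ι)
    (i : ℕ) : (faceP Φ m q n l).coeff i =
      if m * i ≤ n ∧ q ∣ n - m * i then co Φ i ((n - m * i) / q) l else 0 := by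
  unfold faceP
  rw [Polynomial.finsetSum_coeff]
  by_cases hi : i ≤ n
  · rw [Finset.sum_eq_single i]
    · split_ifs with h
      · rw [Polynomial.coeff_monomial, if_pos rfl]
      · rw [Polynomial.coeff_zero]
    · intro b _ hb
      split_ifs with h
      · rw [Polynomial.coeff_monomial, if_neg hb]
      · rw [Polynomial.coeff_zero]
    · intro h
      exact absurd (Finset.mem_range.mpr (by omega)) h
  · have h1 : 1 * i ≤ m * i := Nat.mul_le_mul_right i hm
    rw [if_neg (by omega)]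
    refine Finset.sum_eq_zero fun b hb => ?_
    have hb' : b ≠ i := by
      rintro rfl
      exact hi (by have := Finset.mem_range.mp hb; omega)
    split_ifs with h
    · rw [Polynomial.coeff_monomial, if_neg hb']
    · rw [Polynomial.coeff_zero]

theorem faceP_coeff_of {Φ : ι → PowerSeries (Polynomial k)} {m q n : ℕ} (hm : 1 ≤ m) (hq : 1 ≤ q)
    {i j : ℕ} (h : m * i + q * j = n) (l : ι) : (faceP Φ m q n l).coeff i = co Φ i j l := by
  have h1 : n - m * i = q * j := by omega
  rw [faceP_coeff Φ hm, if_pos ⟨by omega, by rw [h1]; exact dvd_mul_right q j⟩, h1,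
    Nat.mul_div_cancel_left j (by omega)]

theorem faceP_coeff_ne {Φ : ι → PowerSeries (Polynomial k)} {m q n : ℕ} (hm : 1 ≤ m) {i : ℕ}
    {l : ι} (h : (faceP Φ m q n l).coeff i ≠ 0) : ∃ j, co Φ i j ≠ 0 ∧ m * i + q * j = n := by
  rw [faceP_coeff Φ hm] at h
  split_ifs at h with h1
  · refine ⟨(n - m * i) / q, fun h0 => h (congrFun h0 l), ?_⟩
    rw [Nat.mul_div_cancel' h1.2]
    omega
  · exact absurd rfl h

theorem eval₂_congr_mod {R : Type*} [CommRing R] (c : k →+* R) (J : Ideal R) {x y : ι → R}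
    (h : ∀ l, x l - y l ∈ J) (g : MvPolynomial ι k) : eval₂ c x g - eval₂ c y g ∈ J := by
  rw [← Ideal.Quotient.eq, eval₂_comp_left, eval₂_comp_left]
  congr 1
  funext l
  exact Ideal.Quotient.eq.mpr (h l)

theorem face_rel [Fintype ι] (Φ : ι → PowerSeries (Polynomial k)) {m q n : ℕ} (hm : 1 ≤ m)
    (hq : 1 ≤ q) (hmin : ∀ i j, co Φ i j ≠ 0 → n ≤ m * i + q * j) (g : MvPolynomial ι k) (e : ℕ)
    (hg : g.IsHomogeneous e) (h : aeval Φ g = 0) : aeval (faceP Φ m q n) g = 0 := by
  classical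
  set T := n * e + n + 1 with hT
  set Ψ : ι → Polynomial (Polynomial k) := fun l => PowerSeries.trunc T (Φ l) with hΨ
  -- the truncation satisfies the relation modulo `X ^ T`
  have h1 : (Polynomial.X : Polynomial (Polynomial k)) ^ T ∣ aeval Ψ g := by
    rw [Polynomial.X_pow_dvd_iff]
    intro j hj
    have hc : algebraMap k (PowerSeries (Polynomial k)) =
        (Polynomial.coeToPowerSeries.ringHom (R := Polynomial k)).comp
          (algebraMap k (Polynomial (Polynomial k))) := by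
      ext c : 1
      simp [PowerSeries.algebraMap_apply, Polynomial.algebraMap_apply]
    have h' : eval₂ (algebraMap k (PowerSeries (Polynomial k))) Φ g = 0 := h
    have h2 := eval₂_congr_mod (algebraMap k (PowerSeries (Polynomial k)))
      (Ideal.span {(PowerSeries.X : PowerSeries (Polynomial k)) ^ T})
      (x := fun l => ((Ψ l : Polynomial (Polynomial k)) : PowerSeries (Polynomial k))) (y := Φ)
      (fun l => by
        rw [Ideal.mem_span_singleton, PowerSeries.X_pow_dvd_iff]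
        intro d hd
        rw [map_sub, Polynomial.coeff_coe, PowerSeries.coeff_trunc, if_pos hd, sub_self]) g
    rw [h', sub_zero, Ideal.mem_span_singleton, PowerSeries.X_pow_dvd_iff] at h2
    have h3 := h2 j hj
    have h4 : eval₂ (algebraMap k (PowerSeries (Polynomial k)))
        (fun l => ((Ψ l : Polynomial (Polynomial k)) : PowerSeries (Polynomial k))) g =
        ((aeval Ψ g : Polynomial (Polynomial k)) : PowerSeries (Polynomial k)) := by
      have h5 := eval₂_comp_left (Polynomial.coeToPowerSeries.ringHom (R := Polynomial k))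
        (algebraMap k (Polynomial (Polynomial k))) Ψ g
      rw [← hc] at h5
      exact h5.symm
    rw [h4, Polynomial.coeff_coe] at h3
    exact h3
  obtain ⟨H, hH⟩ := h1
  -- the leading form of the substitution
  have h5 : ∀ l, (Polynomial.X : Polynomial (Polynomial k)) ^ n ∣ psi k m q (Ψ l) := by
    intro l
    rw [Polynomial.X_pow_dvd_iff]
    intro d hd
    ext i
    rw [psi_coeff hq, Polynomial.coeff_zero]
    split_ifs with h6
    · rw [hΨ]
      simp only
      rw [PowerSeries.coeff_trunc]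
      split_ifs with h7
      · by_contra hne
        have h8 : co Φ i ((d - m * i) / q) ≠ 0 := fun h0 => hne (congrFun h0 l)
        have h9 := hmin _ _ h8
        rw [Nat.mul_div_cancel' h6.2] at h9
        omega
      · rw [Polynomial.coeff_zero]
    · rfl
  choose G hG using h5
  have h6 : ∀ l, (G l).coeff 0 = faceP Φ m q n l := by
    intro l
    ext i
    have h7 : (psi k m q (Ψ l)).coeff n = (G l).coeff 0 := by
      rw [hG l]
      have := Polynomial.coeff_X_pow_mul (G l) n 0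
      rw [zero_add] at this
      exact this
    rw [← h7, psi_coeff hq, faceP_coeff Φ hm]
    split_ifs with h8
    · rw [hΨ]
      simp only
      rw [PowerSeries.coeff_trunc, if_pos]
      · rfl
      · have : (n - m * i) / q ≤ n - m * i := Nat.div_le_self _ _
        omega
    · rfl
  have h7 : psi k m q (aeval Ψ g) = (Polynomial.X ^ n) ^ e * aeval G g := by
    have h8 := MvPolynomial.comp_aeval_apply (f := Ψ) (psi k m q) g
    have h9 : (fun l => psi k m q (Ψ l)) = fun l => Polynomial.X ^ n * G l := funext hG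
    rw [h9, aeval_smul_form _ _ hg] at h8
    exact h8
  have h8 : psi k m q (Polynomial.X : Polynomial (Polynomial k)) = Polynomial.X ^ q := by
    unfold psi
    simp
  rw [hH, map_mul, map_pow, h8, ← pow_mul, ← pow_mul] at h7
  have h9 : (Polynomial.X : Polynomial (Polynomial k)) ^ (n * e + 1) ∣
      Polynomial.X ^ (n * e) * aeval G g := by
    rw [← h7]
    refine Dvd.dvd.mul_right (pow_dvd_pow _ ?_) _
    calc n * e + 1 ≤ 1 * T := by omega
      _ ≤ q * T := Nat.mul_le_mul_right T hq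
  rw [pow_succ] at h9
  have h10 : (Polynomial.X : Polynomial (Polynomial k)) ∣ aeval G g :=
    (mul_dvd_mul_iff_left (pow_ne_zero _ Polynomial.X_ne_zero)).mp h9
  have h11 : (aeval G g : Polynomial (Polynomial k)).coeff 0 = 0 := Polynomial.X_dvd_iff.mp h10
  have h12 := MvPolynomial.comp_aeval_apply (f := G)
    ((Polynomial.aeval (R := Polynomial k) (0 : Polynomial k)).restrictScalars k) g
  simp only [AlgHom.restrictScalars_apply, ← Polynomial.coeff_zero_eq_aeval_zero] at h12
  have h13 : (fun l => (G l).coeff 0) = faceP Φ m q n := funext h6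
  rw [h11, h13] at h12
  exact h12.symm

theorem reflect_rel [Fintype ι] {F : ι → Polynomial k} {N : ℕ} (hN : ∀ l, (F l).natDegree ≤ N)
    (g : MvPolynomial ι k) (e : ℕ) (hg : g.IsHomogeneous e) (h : aeval F g = 0) :
    aeval (fun l => Polynomial.reflect N (F l)) g = 0 := by
  set K := FractionRing (Polynomial k)
  set x : K := algebraMap (Polynomial k) K Polynomial.X with hx
  have hx0 : x ≠ 0 := by
    rw [hx, Ne, FaithfulSMul.algebraMap_eq_zero_iff]
    exact Polynomial.X_ne_zero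
  have key : ∀ l, algebraMap (Polynomial k) K (Polynomial.reflect N (F l)) =
      x ^ N * Polynomial.aeval x⁻¹ (F l) := by
    intro l
    let _ : Invertible (x⁻¹) := invertibleOfNonzero (inv_ne_zero hx0)
    have h1 := Polynomial.eval₂_reflect_mul_pow (algebraMap k K) (x⁻¹) N (F l) (hN l)
    have h2 : ⅟(x⁻¹) = x := by rw [invOf_eq_inv, inv_inv]
    rw [h2] at h1
    have h3 : Polynomial.eval₂ (algebraMap k K) x (Polynomial.reflect N (F l)) =
        algebraMap (Polynomial k) K (Polynomial.reflect N (F l)) := by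
      have := Polynomial.aeval_algebraMap_apply K (Polynomial.X : Polynomial k)
        (Polynomial.reflect N (F l))
      rw [Polynomial.aeval_X_left_apply] at this
      exact this
    rw [h3] at h1
    rw [Polynomial.aeval_def, ← h1, inv_pow, mul_comm, mul_assoc,
      inv_mul_cancel₀ (pow_ne_zero _ hx0), mul_one]
  have h4 := MvPolynomial.comp_aeval_apply (f := fun l => Polynomial.reflect N (F l))
    (IsScalarTower.toAlgHom k (Polynomial k) K) g
  have h5 : (fun l => (IsScalarTower.toAlgHom k (Polynomial k) K)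
      (Polynomial.reflect N (F l))) = fun l => x ^ N * Polynomial.aeval x⁻¹ (F l) := by
    funext l
    rw [← key l]
    rfl
  rw [h5, aeval_smul_form _ _ hg] at h4
  have h6 := MvPolynomial.comp_aeval_apply (f := F) (Polynomial.aeval (R := k) x⁻¹) g
  rw [h, map_zero] at h6
  rw [← h6, mul_zero] at h4
  have h7 : algebraMap (Polynomial k) K
      (aeval (fun l => Polynomial.reflect N (F l)) g) = 0 := h4
  exact (FaithfulSMul.algebraMap_eq_zero_iff _ _).mp h7

end Alg

/-- The limit along `λ = 0` is `co Φ 0 j₀`, the limit along `X = 0` is `co Φ i₁ N`. If they are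
different points there are rational curves through each of them on which all homogeneous relations
of `Φ` hold. -/
theorem val [Finite ι] (Φ : ι → PowerSeries (Polynomial k)) {j₀ : ℕ} (h0 : ∀ j < j₀, co Φ 0 j = 0)
    (h0' : co Φ 0 j₀ ≠ 0) {N i₁ : ℕ} (hN : ∀ j < N, ∀ i, co Φ i j = 0)
    (h1 : ∀ i < i₁, co Φ i N = 0) (h1' : co Φ i₁ N ≠ 0) (hne : ¬ Prp (co Φ 0 j₀) (co Φ i₁ N)) :
    (∃ C : ι → Polynomial k,
      (∀ (g : MvPolynomial ι k) (e : ℕ), g.IsHomogeneous e → aeval Φ g = 0 → aeval C g = 0) ∧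
      Prp (co Φ 0 j₀) (fun l => (C l).eval 0) ∧ ¬ Const C) ∧
    ∃ C : ι → Polynomial k,
      (∀ (g : MvPolynomial ι k) (e : ℕ), g.IsHomogeneous e → aeval Φ g = 0 → aeval C g = 0) ∧
      Prp (co Φ i₁ N) (fun l => (C l).eval 0) ∧ ¬ Const C := by
  classical
  have := Fintype.ofFinite ι
  have hS0 : ∀ j < j₀, ¬ co Φ 0 j ≠ 0 := fun j hj => not_not.mpr (h0 j hj)
  have hSN : ∀ j < N, ∀ i, ¬ co Φ i j ≠ 0 := fun j hj i => not_not.mpr (hN j hj i)
  have hS1 : ∀ i < i₁, ¬ co Φ i N ≠ 0 := fun i hi => not_not.mpr (h1 i hi)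
  -- a coefficient vector which is a multiple of `b`
  have hmul : ∀ {a b : ι → k}, a ≠ 0 → (∃ c : k, ∀ l, a l = c * b l) → Prp b a := by
    rintro a b ha ⟨c, hc⟩
    refine ⟨c, ?_, hc⟩
    rintro rfl
    exact ha (funext fun l => by rw [hc l, zero_mul]; rfl)
  -- the common end of the two arguments
  have hconst : ∀ (C : ι → Polynomial k) (a b b' : ι → k) (r : ℕ), (∀ l, (C l).eval 0 = a l) →
      a ≠ 0 → (∃ c : k, ∀ l, a l = c * b l) → (∀ l, (C l).coeff r = b' l) →
      (¬ ∃ c : k, ∀ l, b' l = c * b l) → ¬ Const C := by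
    rintro C a b b' r hCa ha ⟨c, hc⟩ hCb hbad ⟨d, v, hdv⟩
    apply hbad
    have h2 : ∀ l, a l = d.eval 0 * v l := fun l => by
      rw [← hCa l, hdv l, Polynomial.eval_mul, Polynomial.eval_C]
    have hd : d.eval 0 ≠ 0 := by
      intro hd
      exact ha (funext fun l => by rw [h2 l, hd, zero_mul]; rfl)
    refine ⟨d.coeff r * ((d.eval 0)⁻¹ * c), fun l => ?_⟩
    have h3 : v l = (d.eval 0)⁻¹ * c * b l := by
      rw [mul_assoc, ← hc l, h2 l, ← mul_assoc, inv_mul_cancel₀ hd, one_mul]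
    rw [← hCb l, hdv l, Polynomial.coeff_mul_C, h3]
    ring
  have hne' : ¬ ∃ c : k, ∀ l, co Φ i₁ N l = c * co Φ 0 j₀ l := fun h => hne (hmul h1' h)
  have hne'' : ¬ ∃ c : k, ∀ l, co Φ 0 j₀ l = c * co Φ i₁ N l := by
    intro h
    obtain ⟨c, hc, h2⟩ := hmul h0' h
    exact hne ⟨c⁻¹, inv_ne_zero hc, fun l => by
      rw [h2 l, ← mul_assoc, inv_mul_cancel₀ hc, one_mul]⟩
  constructor
  · obtain ⟨m, q, n, i', j', hm, hq, hmin, hS', hw', hG', hleast, ib, jb, hbS, hbw, hbG⟩ :=
      val_comb₁ (fun i j => co Φ i j ≠ 0) hS0 h0' hSN hS1 h1'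
        (fun i j => ∃ c : k, ∀ l, co Φ i j l = c * co Φ 0 j₀ l) ⟨1, fun l => by rw [one_mul]⟩ hne'
    have hdvd : ∀ l, (Polynomial.X : Polynomial k) ^ i' ∣ faceP Φ m q n l := by
      intro l
      rw [Polynomial.X_pow_dvd_iff]
      intro i hi
      by_contra hcon
      obtain ⟨j, hj, hw⟩ := faceP_coeff_ne hm hcon
      exact absurd (hleast i j hj hw) (by omega)
    choose C hC using hdvd
    have hcoeff : ∀ l r, (C l).coeff r = (faceP Φ m q n l).coeff (r + i') := by
      intro l r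
      rw [hC l, Polynomial.coeff_X_pow_mul]
    have heval : ∀ l, (C l).eval 0 = co Φ i' j' l := by
      intro l
      rw [← Polynomial.coeff_zero_eq_eval_zero, hcoeff, zero_add, faceP_coeff_of hm hq hw']
    refine ⟨C, fun g e hg h => ?_, ?_, ?_⟩
    · have h2 := face_rel Φ hm hq hmin g e hg h
      have h3 : faceP Φ m q n = fun l => Polynomial.X ^ i' * C l := funext hC
      rw [h3, aeval_smul_form _ _ hg] at h2
      exact (mul_eq_zero.mp h2).resolve_left (pow_ne_zero _ (pow_ne_zero _ Polynomial.X_ne_zero))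
    · have h2 : (fun l => (C l).eval 0) = co Φ i' j' := funext heval
      rw [h2]
      exact hmul hS' hG'
    · refine hconst C (co Φ i' j') (co Φ 0 j₀) (co Φ ib jb) (ib - i') heval hS' hG' (fun l => ?_)
        hbG
      rw [hcoeff, Nat.sub_add_cancel (hleast ib jb hbS hbw), faceP_coeff_of hm hq hbw]
  · obtain ⟨m, q, n, i', j', hm, hq, hmin, hS', hw', hG', hlargest, ib, jb, hbS, hbw, hbG⟩ :=
      val_comb₂ (fun i j => co Φ i j ≠ 0) hS0 h0' hSN hS1 h1'
        (fun i j => ∃ c : k, ∀ l, co Φ i j l = c * co Φ i₁ N l) ⟨1, fun l => by rw [one_mul]⟩ hne''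
    have hdeg : ∀ l, (faceP Φ m q n l).natDegree ≤ i' := by
      intro l
      rw [Polynomial.natDegree_le_iff_coeff_eq_zero]
      intro i hi
      by_contra hcon
      obtain ⟨j, hj, hw⟩ := faceP_coeff_ne hm hcon
      exact absurd (hlargest i j hj hw) (by omega)
    have hcoeff : ∀ l r, r ≤ i' → (Polynomial.reflect i' (faceP Φ m q n l)).coeff (i' - r) =
        (faceP Φ m q n l).coeff r := by
      intro l r hr
      rw [Polynomial.coeff_reflect, Polynomial.revAt_le (by omega)]
      congr 1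
      omega
    have heval : ∀ l, (Polynomial.reflect i' (faceP Φ m q n l)).eval 0 = co Φ i' j' l := by
      intro l
      have h2 := hcoeff l i' le_rfl
      rw [Nat.sub_self] at h2
      rw [← Polynomial.coeff_zero_eq_eval_zero, h2, faceP_coeff_of hm hq hw']
    refine ⟨fun l => Polynomial.reflect i' (faceP Φ m q n l), fun g e hg h => ?_, ?_, ?_⟩
    · exact reflect_rel hdeg g e hg (face_rel Φ hm hq hmin g e hg h)
    · have h2 : (fun l => (Polynomial.reflect i' (faceP Φ m q n l)).eval 0) = co Φ i' j' :=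
        funext heval
      rw [h2]
      exact hmul hS' hG'
    · refine hconst _ (co Φ i' j') (co Φ i₁ N) (co Φ ib jb) (i' - ib) heval hS' hG' (fun l => ?_)
        hbG
      rw [hcoeff l ib (hlargest ib jb hbS hbw), faceP_coeff_of hm hq hbw]

end Pool.Agent.Helper97.RU
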