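import Pool.Agent.Helper97.RU.Family
import Pool.Agent.Helper97.RU.Val

/-!
# The limit does not change along a rational curve
-/

set_option autoImplicit false

namespace Pool.Agent.Helper97.RU

open MvPolynomial Pool.Agent.Helper97.GM

variable {k : Type*} [Field k] {σ ι : Type*} [Fintype σ]

/-- Ring homomorphisms over `k` commute with `aeval`. -/
private theorem tr_map {τ : Type*} {A B : Type*} [CommRing A] [CommRing B] [Algebra k A]
    [Algebra k B] (ρ : A →+* B) (hρ : ∀ r : k, ρ (algebraMap k A r) = algebraMap k B r)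
    (x : τ → A) (f : MvPolynomial τ k) : ρ (aeval x f) = aeval (fun i => ρ (x i)) f := by
  have h1 : ρ.comp (algebraMap k A) = algebraMap k B := RingHom.ext hρ
  rw [map_aeval, h1]
  rfl

private theorem tr_rescale {τ : Type*} (a : k) (x : τ → PowerSeries k) (f : MvPolynomial τ k) :
    PowerSeries.rescale a (aeval x f) = aeval (fun i => PowerSeries.rescale a (x i)) f := by
  refine tr_map _ (fun r => ?_) x f
  ext n
  rw [PowerSeries.coeff_rescale, PowerSeries.algebraMap_apply, PowerSeries.coeff_C]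
  split_ifs with h
  · rw [h, pow_zero, one_mul]
  · rw [mul_zero]

/-- The vector of the lowest coefficients satisfies the homogeneous relations. -/
private theorem tr_lead [Fintype ι] {A : Type*} [CommRing A] [IsDomain A] [Algebra k A]
    {Φ : ι → PowerSeries A} {N : ℕ} (hN : ∀ l, ∀ j < N, PowerSeries.coeff j (Φ l) = 0)
    {g : MvPolynomial ι k} {e : ℕ} (hg : g.IsHomogeneous e) (h : aeval Φ g = 0) :
    aeval (fun l => PowerSeries.coeff N (Φ l)) g = 0 := by
  have h1 : ∀ l, ∃ ψ : PowerSeries A, Φ l = PowerSeries.X ^ N * ψ := fun l =>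
    PowerSeries.X_pow_dvd_iff.2 (hN l)
  choose Ψ hΨ using h1
  have h2 : Φ = fun l => PowerSeries.X ^ N * Ψ l := funext hΨ
  rw [h2, aeval_smul_form _ _ hg] at h
  have h3 : aeval Ψ g = 0 :=
    (mul_eq_zero.1 h).resolve_left (pow_ne_zero _ (pow_ne_zero _ PowerSeries.X_ne_zero))
  have h4 : (fun l => PowerSeries.coeff N (Φ l)) = fun l => PowerSeries.constantCoeff (Ψ l) := by
    funext l
    rw [hΨ l, ← PowerSeries.coeff_zero_eq_constantCoeff_apply]
    have h5 := PowerSeries.coeff_X_pow_mul (Ψ l) N 0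
    rwa [zero_add] at h5
  have h6 : ∀ r : k, (PowerSeries.constantCoeff (R := A)) (algebraMap k (PowerSeries A) r) =
      algebraMap k A r := by
    intro r
    rw [PowerSeries.algebraMap_apply, PowerSeries.constantCoeff_C]
  rw [h4, ← tr_map (PowerSeries.constantCoeff (R := A)) h6 Ψ g, h3, map_zero]

/-- Division of a polynomial vector by a power of the variable. -/
private theorem tr_div [Fintype ι] (C' : ι → Polynomial k) (m : ℕ)
    (hm : ∀ i < m, ∀ l, (C' l).coeff i = 0) :
    ∃ C : ι → Polynomial k, (∀ l, C' l = Polynomial.X ^ m * C l) ∧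
      (∀ l, (C l).eval 0 = (C' l).coeff m) ∧
      ∀ (g : MvPolynomial ι k) (e : ℕ), g.IsHomogeneous e → aeval C' g = 0 → aeval C g = 0 := by
  have h1 : ∀ l, ∃ c : Polynomial k, C' l = Polynomial.X ^ m * c := fun l =>
    Polynomial.X_pow_dvd_iff.2 fun d hd => hm d hd l
  choose C hC using h1
  refine ⟨C, hC, fun l => ?_, fun g e hg h => ?_⟩
  · rw [hC l, ← Polynomial.coeff_zero_eq_eval_zero]
    have h5 := Polynomial.coeff_X_pow_mul (C l) m 0
    rw [zero_add] at h5
    exact h5.symm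
  · have h2 : C' = fun l => Polynomial.X ^ m * C l := funext hC
    rw [h2, aeval_smul_form _ _ hg] at h
    exact (mul_eq_zero.1 h).resolve_left (pow_ne_zero _ (pow_ne_zero _ Polynomial.X_ne_zero))

private theorem tr_prp_trans {τ : Type*} {x y z : τ → k} (h : Prp x y) (h' : Prp y z) :
    Prp x z := by
  obtain ⟨c, hc, hc'⟩ := h
  obtain ⟨d, hd, hd'⟩ := h'
  exact ⟨d * c, mul_ne_zero hd hc, fun i => by rw [hd' i, hc' i, mul_assoc]⟩

private theorem tr_prp_symm {τ : Type*} {x y : τ → k} (h : Prp x y) : Prp y x := by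
  obtain ⟨c, hc, hc'⟩ := h
  exact ⟨c⁻¹, inv_ne_zero hc, fun i => by rw [hc' i, inv_mul_cancel_left₀ hc]⟩

private theorem tr_prp_smul {τ : Type*} {c : k} (hc : c ≠ 0) (x : τ → k) :
    Prp x (fun i => c * x i) := ⟨c, hc, fun _ => rfl⟩

/-- The limit of the map along one arc of the family. -/
private theorem tr_lim {τ : Type*} {Φ : ι → PowerSeries (Polynomial k)} {φ : ι → MvPolynomial τ k}
    {α : τ → PowerSeries k} {b : ι → k} {a : k} (ha : a ≠ 0) (hb : IsLim φ α b)
    (hΦ : ∀ l j, (PowerSeries.coeff j (Φ l)).coeff 0 =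
      PowerSeries.coeff j (PowerSeries.rescale a (aeval α (φ l)))) :
    ∃ j₀, (∀ j < j₀, co Φ 0 j = 0) ∧ co Φ 0 j₀ ≠ 0 ∧ Prp b (co Φ 0 j₀) := by
  obtain ⟨hb0, j₀, h1, h2⟩ := hb
  have h3 : co Φ 0 j₀ = fun l => a ^ j₀ * b l := by
    funext l
    simp only [co]
    rw [hΦ, PowerSeries.coeff_rescale, h2 l]
  refine ⟨j₀, fun j hj => ?_, ?_, ?_⟩
  · funext l
    simp only [co]
    rw [hΦ, PowerSeries.coeff_rescale, h1 l j hj, mul_zero, Pi.zero_apply]
  · intro h4
    apply hb0
    funext l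
    have h5 := congrFun (h3.symm.trans h4) l
    exact (mul_eq_zero.1 h5).resolve_left (pow_ne_zero _ ha)
  · rw [h3]
    exact tr_prp_smul (pow_ne_zero _ ha) b

theorem transport [Finite ι] [Infinite k] {I : Ideal (MvPolynomial σ k)}
    {δ : ℕ} {φ : ι → MvPolynomial σ k} (hφ : ∀ l, (φ l).IsHomogeneous δ) {Y : σ → Polynomial k}
    (hY : On I Y) (h0 : SmoothPt I (fun i => (Y i).eval 0))
    (h1 : SmoothPt I (fun i => (Y i).eval 1)) {α β : σ → PowerSeries k}
    (hα : Arc I (fun i => (Y i).eval 0) α) (hβ : Arc I (fun i => (Y i).eval 1) β) {b b' : ι → k}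
    (hb : IsLim φ α b) (hb' : IsLim φ β b')
    (hfree : ∀ C : ι → Polynomial k, InB I φ C → Prp b (fun l => (C l).eval 0) → Const C) :
    Prp b b' := by
  classical
  have : Fintype ι := Fintype.ofFinite ι
  obtain ⟨γ, a, a', ha, ha', hγ, -, hγ0, hγ1⟩ := family hY h0 h1 hα hβ
  set Φ : ι → PowerSeries (Polynomial k) := fun l => aeval γ (φ l) with hΦdef
  -- relations
  have hrel : ∀ g : MvPolynomial ι k, bind₁ φ g ∈ I → aeval Φ g = 0 := by
    intro g hg
    have h2 := hγ _ hg
    rwa [aeval_bind₁] at h2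
  -- evaluation of the parameter
  have hmapC : ∀ (s r : k), (PowerSeries.map (Polynomial.evalRingHom s))
      (algebraMap k (PowerSeries (Polynomial k)) r) = algebraMap k (PowerSeries k) r := by
    intro s r
    rw [PowerSeries.algebraMap_apply, PowerSeries.algebraMap_apply, PowerSeries.map_C]
    simp
  have hev : ∀ (s c : k) (θ : σ → PowerSeries k),
      (∀ i, PowerSeries.map (Polynomial.evalRingHom s) (γ i) = PowerSeries.rescale c (θ i)) →
      ∀ l j, (PowerSeries.coeff j (Φ l)).eval s =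
        PowerSeries.coeff j (PowerSeries.rescale c (aeval θ (φ l))) := by
    intro s c θ hθ l j
    have h2 : PowerSeries.map (Polynomial.evalRingHom s) (Φ l) =
        PowerSeries.rescale c (aeval θ (φ l)) := by
      rw [tr_rescale, hΦdef]
      simp only
      rw [tr_map _ (hmapC s)]
      congr 2
      funext i
      exact hθ i
    rw [← h2, PowerSeries.coeff_map]
    rfl
  obtain ⟨j₀, hj1, hj2, hj3⟩ := tr_lim (Φ := Φ) ha hb (fun l j => by
    rw [Polynomial.coeff_zero_eq_eval_zero]; exact hev 0 a α hγ0 l j)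
  -- the lowest coefficient along `X = 0`
  have hex : ∃ j, ∃ i, co Φ i j ≠ 0 := ⟨j₀, 0, hj2⟩
  set N := Nat.find hex with hNdef
  have hNlt : ∀ j < N, ∀ i, co Φ i j = 0 := by
    intro j hj i
    by_contra hc
    exact Nat.find_min hex hj ⟨i, hc⟩
  have hex2 : ∃ i, co Φ i N ≠ 0 := Nat.find_spec hex
  set i₁ := Nat.find hex2 with hi₁def
  have hilt : ∀ i < i₁, co Φ i N = 0 := by
    intro i hi
    by_contra hc
    exact Nat.find_min hex2 hi hc
  have hine : co Φ i₁ N ≠ 0 := Nat.find_spec hex2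
  -- the two limits agree
  have hA : Prp (co Φ 0 j₀) (co Φ i₁ N) := by
    by_contra hc
    obtain ⟨⟨C, hC1, hC2, hC3⟩, -⟩ := val Φ hj1 hj2 hNlt hilt hine hc
    exact hC3 (hfree C (fun g e hg hgI => hC1 g e hg (hrel g hgI)) (tr_prp_trans hj3 hC2))
  have hbN : Prp b (co Φ i₁ N) := tr_prp_trans hj3 hA
  have hcoef : ∀ l, ∀ j < N, PowerSeries.coeff j (Φ l) = 0 := by
    intro l j hj
    ext i
    exact congrFun (hNlt j hj i) l
  -- the curve `X = 0`
  obtain ⟨Ct, hCt1, hCt2, hCt3⟩ := tr_div (fun l => PowerSeries.coeff N (Φ l)) i₁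
    (fun i hi l => congrFun (hilt i hi) l)
  have hCt0 : (fun l => (Ct l).eval 0) = co Φ i₁ N := by
    funext l
    exact hCt2 l
  have hconst : Const Ct := by
    refine hfree Ct (fun g e hg hgI => hCt3 g e hg (tr_lead hcoef hg (hrel g hgI))) ?_
    rw [hCt0]
    exact hbN
  obtain ⟨d, b₂, hd⟩ := hconst
  have hCtl : ∀ l, d.eval 0 * b₂ l = co Φ i₁ N l := by
    intro l
    rw [← hCt0]
    simp only
    rw [hd l, Polynomial.eval_mul, Polynomial.eval_C]
  have hd0 : d.eval 0 ≠ 0 := by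
    intro h2
    apply hine
    funext l
    rw [← hCtl l, h2, zero_mul, Pi.zero_apply]
  have hb2 : Prp b b₂ := by
    refine tr_prp_trans hbN (tr_prp_symm ⟨d.eval 0, hd0, fun l => (hCtl l).symm⟩)
  have hb20 : b₂ ≠ 0 := by
    intro h2
    apply hine
    funext l
    rw [← hCtl l, h2]
    simp
  have hdne : d ≠ 0 := by
    intro h2
    apply hd0
    rw [h2, Polynomial.eval_zero]
  -- the family with the parameter shifted
  set T : Polynomial k →+* Polynomial k := Polynomial.compRingHom (Polynomial.X + Polynomial.C 1)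
    with hT
  have hTapp : ∀ p : Polynomial k, T p = p.comp (Polynomial.X + Polynomial.C 1) := fun p => rfl
  have hTC : ∀ r : k, T (Polynomial.C r) = Polynomial.C r := fun r => by
    rw [hTapp, Polynomial.C_comp]
  have hTeval : ∀ p : Polynomial k, (T p).coeff 0 = p.eval 1 := by
    intro p
    rw [Polynomial.coeff_zero_eq_eval_zero, hTapp, Polynomial.eval_comp]
    simp
  have hTne : ∀ p : Polynomial k, p ≠ 0 → T p ≠ 0 := by
    intro p hp h2
    rw [hTapp, Polynomial.comp_X_add_C_eq_zero_iff] at h2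
    exact hp h2
  set Φ₁ : ι → PowerSeries (Polynomial k) := fun l => PowerSeries.map T (Φ l) with hΦ₁
  have hrel1 : ∀ g : MvPolynomial ι k, bind₁ φ g ∈ I → aeval Φ₁ g = 0 := by
    intro g hg
    have h2 : ∀ r : k, (PowerSeries.map T) (algebraMap k (PowerSeries (Polynomial k)) r) =
        algebraMap k (PowerSeries (Polynomial k)) r := by
      intro r
      rw [PowerSeries.algebraMap_apply, PowerSeries.map_C]
      congr 1
      exact hTC r
    rw [hΦ₁, ← tr_map (PowerSeries.map T) h2 Φ g, hrel g hg, map_zero]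
  obtain ⟨j₁, hk1, hk2, hk3⟩ := tr_lim (Φ := Φ₁) ha' hb' (fun l j => by
    rw [hΦ₁]
    simp only
    rw [PowerSeries.coeff_map, hTeval]
    exact hev 1 a' β hγ1 l j)
  have hN1 : ∀ j < N, ∀ i, co Φ₁ i j = 0 := by
    intro j hj i
    funext l
    simp only [co, hΦ₁]
    rw [PowerSeries.coeff_map, hcoef l j hj, map_zero, Polynomial.coeff_zero, Pi.zero_apply]
  set D : Polynomial k := T (Polynomial.X ^ i₁ * d) with hD
  have hDne : D ≠ 0 := hTne _ (mul_ne_zero (pow_ne_zero _ Polynomial.X_ne_zero) hdne)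
  have hcoN : ∀ i, co Φ₁ i N = fun l => D.coeff i * b₂ l := by
    intro i
    funext l
    simp only [co, hΦ₁]
    rw [PowerSeries.coeff_map, hCt1 l, hd l, ← mul_assoc, map_mul, hTC, Polynomial.coeff_mul_C]
  have hDex : ∃ i, D.coeff i ≠ 0 := by
    by_contra hc
    push Not at hc
    exact hDne (Polynomial.ext fun i => by rw [hc i, Polynomial.coeff_zero])
  set i₂ := Nat.find hDex with hi₂
  have hi2lt : ∀ i < i₂, co Φ₁ i N = 0 := by
    intro i hi
    have h2 : D.coeff i = 0 := by
      by_contra hc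
      exact Nat.find_min hDex hi hc
    rw [hcoN i, h2]
    funext l
    simp
  have hDi : D.coeff i₂ ≠ 0 := Nat.find_spec hDex
  have hbi2 : Prp b₂ (co Φ₁ i₂ N) := by
    rw [hcoN i₂]
    exact tr_prp_smul hDi b₂
  have hi2ne : co Φ₁ i₂ N ≠ 0 := by
    intro h2
    apply hb20
    funext l
    have h3 := congrFun ((hcoN i₂).symm.trans h2) l
    exact (mul_eq_zero.1 h3).resolve_left hDi
  by_contra hcon
  have hne : ¬ Prp (co Φ₁ 0 j₁) (co Φ₁ i₂ N) := by
    intro h2
    exact hcon (tr_prp_trans hb2 (tr_prp_symm (tr_prp_trans hk3 (tr_prp_trans h2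
      (tr_prp_symm hbi2)))))
  obtain ⟨-, C, hC1, hC2, hC3⟩ := val Φ₁ hk1 hk2 hN1 hi2lt hi2ne hne
  exact hC3 (hfree C (fun g e hg hgI => hC1 g e hg (hrel1 g hgI))
    (tr_prp_trans hb2 (tr_prp_trans hbi2 hC2)))

end Pool.Agent.Helper97.RU
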